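import Pool.Agent.H53.DC.Grp
import Pool.Agent.H53.Lib.R_seed8.W401.Cheb.AbsDefs

/-!
# Galois representations attached to base changes: definitions

`K` is a number field and `GK K` its absolute Galois group.  The extensions of `K` which occur are
given by subgroups of `GK K`: `F` by the group `Gal(K̄/F)`.  A finite Galois extension `L` of `K`
with Galois group `Γ` is given by a surjective homomorphism `π` from `GK K` to `Γ` with open kernel
`Gal(K̄/L)`.  The fields between `K` and `L` are the fields `L^U`, where `U` is a subgroup of `Γ`, and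
`U.comap π` is `Gal(K̄/L^U)`.

The Hecke polynomial of a system at `v` is `∏ (X - α v l)`.  For an eigenclass on `GL₂` as in the
problem, `n = 2`, and `α v 0`, `α v 1` are the roots of `X ^ 2 - a v X + b v N(v)`.  The parameters of
the base change to `F` at a place of residue degree `f` over `v` are the `α v l ^ f`.
-/

set_option autoImplicit false

namespace Pool.Agent.H53.DC

open NumberField IsDedekindDomain Polynomial
open Pool.Agent.W401.Cheb (GK IsFrob IsInert)

variable {K : Type} [Field K] [NumberField K] {k : Type} [Field k] {n : ℕ}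

/-- `σ` acts on the residue field of a maximal ideal `Q` above `v` of the ring of all algebraic
integers as `x ↦ x ^ (N(v) ^ f)`. -/
def IsFrobPow (v : HeightOneSpectrum (𝓞 K)) (f : ℕ) (σ : GK K) : Prop :=
  ∃ Q : Ideal (𝓞 (AlgebraicClosure K)), Q.IsMaximal ∧
    Q.comap (algebraMap (𝓞 K) (𝓞 (AlgebraicClosure K))) = v.asIdeal ∧
    ∀ x : 𝓞 (AlgebraicClosure K), σ • x - x ^ (Ideal.absNorm v.asIdeal) ^ f ∈ Q

/-- The representation `ρ` of `U = Gal(K̄/F)` is attached to the base change of the system `α` to `F`:
it is unramified at the places of `F` above the `v` outside `S`, and the characteristic polynomial of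
an element which acts at a place above `v` as the `f`-th power of the Frobenius element of `v` is
`∏ (X - α v l ^ f)`. -/
def AttachedOver (S : Set (HeightOneSpectrum (𝓞 K))) (α : HeightOneSpectrum (𝓞 K) → Fin n → k)
    (U : Subgroup (GK K)) (ρ : U →* GL (Fin n) k) : Prop :=
  ∀ v ∉ S, (∀ σ : U, IsInert v (σ : GK K) → ρ σ = 1) ∧
    ∀ (f : ℕ) (σ : U), 0 < f → IsFrobPow v f (σ : GK K) →
      (ρ σ : Matrix (Fin n) (Fin n) k).charpoly = ∏ l, (X - C (α v l ^ f))

/-- The representation `R` of the absolute Galois group of `K` is attached to the system `α`: at `v`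
outside `S` it is unramified, and the characteristic polynomial of Frobenius is `∏ (X - α v l)`. -/
def Attached (S : Set (HeightOneSpectrum (𝓞 K))) (α : HeightOneSpectrum (𝓞 K) → Fin n → k)
    (R : GK K →* GL (Fin n) k) : Prop :=
  ∀ v ∉ S, (∀ σ, IsInert v σ → R σ = 1) ∧
    ∀ σ, IsFrob v σ → (R σ : Matrix (Fin n) (Fin n) k).charpoly = ∏ l, (X - C (α v l))

/-- The continuous character `δ` is the determinant of the system: `δ(Frob_v) = ∏ α v l`. -/
def IsDeterminant [TopologicalSpace k] (S : Set (HeightOneSpectrum (𝓞 K)))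
    (α : HeightOneSpectrum (𝓞 K) → Fin n → k) (δ : GK K →* kˣ) : Prop :=
  Continuous δ ∧ ∀ v ∉ S, ∀ σ, IsFrob v σ → ((δ σ : kˣ) : k) = ∏ l, α v l

/-- The restriction to `N = Gal(K̄/L)` of the representation `ρ` of `U = Gal(K̄/F)` is irreducible. -/
def IrreducibleOver (N U : Subgroup (GK K)) (ρ : U →* GL (Fin n) k) : Prop :=
  0 < n ∧ ∀ W : Submodule k (Fin n → k),
    (∀ σ : U, (σ : GK K) ∈ N → ∀ w ∈ W, (ρ σ : Matrix (Fin n) (Fin n) k).mulVec w ∈ W) →
      W = ⊥ ∨ W = ⊤

/-- `ρ` is a continuous representation of `U = Gal(K̄/F)`, irreducible over `L` (`N = Gal(K̄/L)`) and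
attached to the base change of the system to `F`. -/
def Good [TopologicalSpace k] (N : Subgroup (GK K)) (S : Set (HeightOneSpectrum (𝓞 K)))
    (α : HeightOneSpectrum (𝓞 K) → Fin n → k) (U : Subgroup (GK K)) (ρ : U →* GL (Fin n) k) :
    Prop :=
  Continuous ρ ∧ IrreducibleOver N U ρ ∧ AttachedOver S α U ρ

/-- The continuous representation `R` is attached to the system, has the determinant `δ`, and the
restriction of `R` to `U = Gal(K̄/F)`, for the groups `U` in the family `𝓕`, is isomorphic to every
representation `ρ` of `U` which is attached to the base change and irreducible over `L`.  So `R` has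
every property, such as irreducibility or having potentially weight two, which passes from the
restriction to an open subgroup to the representation and which holds for some `ρ`. -/
def Solves [TopologicalSpace k] (N : Subgroup (GK K)) (𝓕 : Set (Subgroup (GK K)))
    (S : Set (HeightOneSpectrum (𝓞 K))) (α : HeightOneSpectrum (𝓞 K) → Fin n → k)
    (δ : GK K →* kˣ) (R : GK K →* GL (Fin n) k) : Prop :=
  Continuous R ∧ Attached S α R ∧ (∀ σ, Matrix.GeneralLinearGroup.det (R σ) = δ σ) ∧
    ∀ U ∈ 𝓕, ∀ ρ : U →* GL (Fin n) k, Good N S α U ρ → ∃ P : GL (Fin n) k, ∀ σ : U,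
      R σ = P * ρ σ * P⁻¹

/-- **Descent.**  Existence over the fields of the family `𝓕` implies existence over `K`, for all
systems of dimension `n` with a given determinant. -/
def Descends (n : ℕ) (N : Subgroup (GK K)) (𝓕 : Set (Subgroup (GK K))) (k : Type) [Field k]
    [TopologicalSpace k] : Prop :=
  ∀ (S : Set (HeightOneSpectrum (𝓞 K))) (α : HeightOneSpectrum (𝓞 K) → Fin n → k)
    (δ : GK K →* kˣ), S.Finite → IsDeterminant S α δ →
    (∀ U ∈ 𝓕, ∃ ρ : U →* GL (Fin n) k, Good N S α U ρ) →
    ∃ R : GK K →* GL (Fin n) k, Solves N 𝓕 S α δ R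

/-- **Failure of descent.**  There is a system of dimension `n` with a determinant, such that there
are representations over all fields of the family, but no continuous representation over `K`,
semisimple or not, which has the right characteristic polynomials at all but finitely many `v`. -/
def Fails (n : ℕ) (N : Subgroup (GK K)) (𝓕 : Set (Subgroup (GK K))) (k : Type) [Field k]
    [TopologicalSpace k] : Prop :=
  ∃ (S : Set (HeightOneSpectrum (𝓞 K))) (α : HeightOneSpectrum (𝓞 K) → Fin n → k)
    (δ : GK K →* kˣ), S.Finite ∧ IsDeterminant S α δ ∧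
    (∀ U ∈ 𝓕, ∃ ρ : U →* GL (Fin n) k, Good N S α U ρ) ∧
    ∀ S' : Set (HeightOneSpectrum (𝓞 K)), S'.Finite →
      ¬ ∃ R : GK K →* GL (Fin n) k, Continuous R ∧
        ∀ v ∉ S', ∀ σ, IsFrob v σ →
          (R σ : Matrix (Fin n) (Fin n) k).charpoly = ∏ l, (X - C (α v l))

/-- the groups `Gal(K̄/L^U)` for the subgroups `U` of `Gal(L/K)` in the family `𝓤` -/
def fields {Γ : Type} [Group Γ] (π : GK K →* Γ) (𝓤 : Set (Subgroup Γ)) : Set (Subgroup (GK K)) :=
  {V | ∃ U ∈ 𝓤, V = U.comap π}

/-- Descent from the fields `L^U`, `U ∈ 𝓤`, for all number fields `K`, all extensions `L / K` with the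
group `Γ` and all coefficients. -/
def AlwaysDescends {Γ : Type} [Group Γ] (𝓤 : Set (Subgroup Γ)) (n : ℕ) : Prop :=
  ∀ (K : Type) [Field K] [NumberField K] (π : GK K →* Γ), Function.Surjective π →
    IsOpen (π.ker : Set (GK K)) →
    ∀ (k : Type) [Field k] [CharZero k] [IsAlgClosed k] [TopologicalSpace k]
      [IsTopologicalRing k] [T2Space k], Descends n π.ker (fields π 𝓤) k

/-- There are a number field `K` and an extension `L / K` with the group `Γ` for which descent from the
fields `L^U`, `U ∈ 𝓤`, fails for all coefficients. -/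
def SometimesFails {Γ : Type} [Group Γ] (𝓤 : Set (Subgroup Γ)) (n : ℕ) : Prop :=
  ∃ (K : Type) (_ : Field K) (_ : NumberField K) (π : GK K →* Γ), Function.Surjective π ∧
    IsOpen (π.ker : Set (GK K)) ∧
    ∀ (k : Type) [Field k] [CharZero k] [IsAlgClosed k] [TopologicalSpace k]
      [IsTopologicalRing k] [T2Space k], Fails n π.ker (fields π 𝓤) k

end Pool.Agent.H53.DC
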