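import Pool.Agent.H53.DC.Grp
import Pool.Agent.H53.Lib.R_pool_sql_team_seeded_63374d34.N60.GD.Core

/-!
# The gluing is a homomorphism
-/

set_option autoImplicit false
set_option linter.unusedSectionVars false

namespace Pool.Agent.H53.DC

open Pool.Agent.N60.GD

section

variable {k : Type} [Field k] [IsAlgClosed k] [CharZero k] {n : ℕ} {G : Type} [Group G]
  {Γ : Type} [Group Γ] [Finite Γ] (π : G →* Γ) (hπ : Function.Surjective π)
  (𝓤 : Set (Subgroup Γ))

/-- the subgroups of `G` given by the family -/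
abbrev cm (i : 𝓤) : Subgroup G := i.1.comap π

variable {𝓤} {s : 𝓤 → G → GL (Fin n) k} {T : G → GL (Fin n) k}

/-- the pairs `(T m, m)` -/
def MM (D : Dat π.ker (cm π 𝓤) s) (W : Glue π.ker (cm π 𝓤) s T) : Subgroup (EE π.ker T) where
  carrier := {a | a.1.2 ∈ π.ker ∧ a.1.1 = T a.1.2}
  one_mem' := ⟨π.ker.one_mem, (Glue.one D W).symm⟩
  mul_mem' := by
    rintro a b ⟨ha, ha'⟩ ⟨hb, hb'⟩
    refine ⟨π.ker.mul_mem ha hb, ?_⟩
    obtain ⟨i, x, -⟩ := D.cov 1
    change a.1.1 * b.1.1 = T (a.1.2 * b.1.2)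
    have h1 : ∀ m ∈ π.ker, x * m * x⁻¹ ∈ cm π 𝓤 i := fun m hm =>
      D.hNU i ((inferInstance : π.ker.Normal).conj_mem m hm x)
    rw [Glue.hom D W i x _ _ (h1 _ ha) (h1 _ hb), ha', hb']
  inv_mem' := by
    rintro a ⟨ha, ha'⟩
    refine ⟨π.ker.inv_mem ha, ?_⟩
    change a.1.1⁻¹ = T a.1.2⁻¹
    rw [Glue.inv D W, ha']

theorem mem_MM {D : Dat π.ker (cm π 𝓤) s} {W : Glue π.ker (cm π 𝓤) s T} {a : EE π.ker T} :
    a ∈ MM π D W ↔ a.1.2 ∈ π.ker ∧ a.1.1 = T a.1.2 := Iff.rfl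

instance MM_normal (D : Dat π.ker (cm π 𝓤) s) (W : Glue π.ker (cm π 𝓤) s T) :
    (MM π D W).Normal := by
  refine ⟨fun a ha b => ?_⟩
  rw [mem_MM] at ha ⊢
  refine ⟨(inferInstance : π.ker.Normal).conj_mem _ ha.1 b.1.2, ?_⟩
  have h1 := b.2 a.1.2 ha.1
  change b.1.1 * a.1.1 * b.1.1⁻¹ = T (b.1.2 * a.1.2 * b.1.2⁻¹)
  rw [← h1, ha.2]

/-- the element of the quotient given by `T g` -/
def qq (D : Dat π.ker (cm π 𝓤) s) (W : Glue π.ker (cm π 𝓤) s T) (g : G) :
    EE π.ker T ⧸ MM π D W := QuotientGroup.mk ⟨(T g, g), mem_EE D W g⟩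

theorem qq_eq (D : Dat π.ker (cm π 𝓤) s) (W : Glue π.ker (cm π 𝓤) s T) {g h : G}
    (hgh : π g = π h) : qq π D W g = qq π D W h := by
  refine QuotientGroup.eq.2 ?_
  rw [mem_MM]
  have hm : g⁻¹ * h ∈ π.ker := by
    rw [MonoidHom.mem_ker, map_mul, map_inv, hgh, inv_mul_cancel]
  refine ⟨hm, ?_⟩
  change (T g)⁻¹ * T h = T (g⁻¹ * h)
  obtain ⟨i, x, hx⟩ := D.cov g
  have h1 := Glue.hom D W i x g (g⁻¹ * h) hx
    (D.hNU i ((inferInstance : π.ker.Normal).conj_mem _ hm x))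
  rw [mul_inv_cancel_left] at h1
  rw [h1, inv_mul_cancel_left]

theorem qq_mul (D : Dat π.ker (cm π 𝓤) s) (W : Glue π.ker (cm π 𝓤) s T) {g h : G}
    (hgh : T (g * h) = T g * T h) : qq π D W (g * h) = qq π D W g * qq π D W h := by
  unfold qq
  rw [← QuotientGroup.mk_mul]
  congr 1
  apply Subtype.ext
  exact Prod.ext hgh rfl

theorem qq_conj (D : Dat π.ker (cm π 𝓤) s) (W : Glue π.ker (cm π 𝓤) s T) (x g : G) :
    qq π D W (x * g * x⁻¹) = qq π D W x * qq π D W g * (qq π D W x)⁻¹ := by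
  unfold qq
  rw [← QuotientGroup.mk_mul, ← QuotientGroup.mk_inv, ← QuotientGroup.mk_mul]
  congr 1
  apply Subtype.ext
  exact Prod.ext (Glue.conj D W x g) rfl

include hπ in
/-- **the gluing is a homomorphism** -/
theorem glue_hom (hcop : (Nat.card (pr 𝓤).ker).Coprime n) (D : Dat π.ker (cm π 𝓤) s)
    (W : Glue π.ker (cm π 𝓤) s T) (δ : G →* kˣ)
    (hδ : ∀ i, ∀ u ∈ cm π 𝓤 i, Matrix.GeneralLinearGroup.det (s i u) = δ u) (g h : G) :
    T (g * h) = T g * T h := by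
  classical
  let σ : Γ → G := Function.surjInv hπ
  have hσ : ∀ γ, π (σ γ) = γ := Function.surjInv_eq hπ
  let Φ : Ext 𝓤 →* EE π.ker T ⧸ MM π D W := lift (fun γ => qq π D W (σ γ))
    (by
      intro U hU a ha b hb
      have h1 : T (σ a * σ b) = T (σ a) * T (σ b) := by
        refine Glue.hom D W ⟨U, hU⟩ 1 _ _ ?_ ?_
        · rw [one_mul, inv_one, mul_one]
          change π (σ a) ∈ U
          rwa [hσ]
        · rw [one_mul, inv_one, mul_one]
          change π (σ b) ∈ U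
          rwa [hσ]
      change qq π D W (σ (a * b)) = _
      rw [← qq_mul π D W h1]
      exact qq_eq π D W (by rw [hσ, map_mul, hσ, hσ]))
    (by
      intro x a
      change qq π D W (σ (x * a * x⁻¹)) = _
      rw [← qq_conj]
      exact qq_eq π D W (by rw [hσ, map_mul, map_mul, map_inv, hσ, hσ]))
  have hΦ : ∀ a : G, Φ (br 𝓤 (π a)) = qq π D W a := fun a => by
    rw [lift_br]
    exact qq_eq π D W (hσ _)
  obtain ⟨z, hz⟩ : ∃ z, z = (T (g * h))⁻¹ * (T g * T h) := ⟨_, rfl⟩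
  obtain ⟨⟨c, hc⟩, -⟩ := Glue.central D W (T g * T h) (g * h) (mem_EE_mul D W g h)
  rw [← hz] at hc
  have hn : 0 < n := W.irr.1
  have hne : Nonempty (Fin n) := ⟨⟨0, hn⟩⟩
  have hinj : ∀ a b : k, a • (1 : Matrix (Fin n) (Fin n) k) = b • 1 → a = b := by
    intro a b hab
    have := congrFun (congrFun hab ⟨0, hn⟩) ⟨0, hn⟩
    simpa using this
  -- the power given by the order of the kernel
  have hpow : z ^ Nat.card (pr 𝓤).ker = 1 := by
    let y : Ext 𝓤 := (br 𝓤 (π (g * h)))⁻¹ * (br 𝓤 (π g) * br 𝓤 (π h))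
    have hy : y ∈ (pr 𝓤).ker := by
      rw [MonoidHom.mem_ker]
      change pr 𝓤 ((br 𝓤 (π (g * h)))⁻¹ * (br 𝓤 (π g) * br 𝓤 (π h))) = 1
      simp only [map_mul, map_inv, pr_br]
      group
    have h1 : y ^ Nat.card (pr 𝓤).ker = 1 := by
      have := pow_card_eq_one' (G := (pr 𝓤).ker) (x := ⟨y, hy⟩)
      exact congrArg Subtype.val this
    have h2 : Φ y = QuotientGroup.mk ⟨(z, 1), by rw [hz]; exact mem_EE_z D W g h⟩ := by
      have e1 : Φ y = (Φ (br 𝓤 (π (g * h))))⁻¹ * (Φ (br 𝓤 (π g)) * Φ (br 𝓤 (π h))) := by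
        rw [← map_mul, ← map_inv, ← map_mul]
      rw [e1, hΦ, hΦ, hΦ]
      unfold qq
      rw [← QuotientGroup.mk_inv, ← QuotientGroup.mk_mul, ← QuotientGroup.mk_mul]
      congr 1
      apply Subtype.ext
      refine Prod.ext ?_ ?_
      · change (T (g * h))⁻¹ * (T g * T h) = z
        exact hz.symm
      · change (g * h)⁻¹ * (g * h) = 1
        rw [inv_mul_cancel]
    have h3 := congrArg Φ h1
    rw [map_pow, h2, map_one, ← QuotientGroup.mk_pow, QuotientGroup.eq_one_iff, mem_MM] at h3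
    have h4 : z ^ Nat.card (pr 𝓤).ker = T (1 ^ Nat.card (pr 𝓤).ker) := h3.2
    rw [h4, one_pow, Glue.one D W]
  have hc1 : c ^ Nat.card (pr 𝓤).ker = 1 := by
    have h1 := congrArg Units.val hpow
    rw [Units.val_pow_eq_pow_val, hc, smul_pow, one_pow, Units.val_one] at h1
    apply hinj
    rw [h1, one_smul]
  -- the determinant
  have hdet : ∀ x, Matrix.GeneralLinearGroup.det (T x) = δ x := by
    intro x
    obtain ⟨i, y, hy⟩ := D.cov x
    rw [W.det i y x hy, hδ i _ hy, map_mul, map_mul, map_inv, mul_comm, ← mul_assoc,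
      inv_mul_cancel, one_mul]
  have hdz : Matrix.GeneralLinearGroup.det z = 1 := by
    rw [hz, map_mul, map_inv, map_mul, hdet, hdet, hdet, map_mul, inv_mul_cancel]
  have hcn : c ^ n = 1 := by
    have h1 := congrArg Units.val hdz
    rw [Matrix.GeneralLinearGroup.val_det_apply, hc, Matrix.det_smul, Matrix.det_one, mul_one,
      Fintype.card_fin, Units.val_one] at h1
    exact h1
  have hc2 : c = 1 := by
    have h1 : orderOf c ∣ 1 := by
      rw [← hcop]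
      exact Nat.dvd_gcd (orderOf_dvd_of_pow_eq_one hc1) (orderOf_dvd_of_pow_eq_one hcn)
    exact orderOf_eq_one_iff.1 (Nat.dvd_one.1 h1)
  have hz1 : z = 1 := by
    apply Units.ext
    rw [hc, hc2, one_smul, Units.val_one]
  rw [hz] at hz1
  exact inv_mul_eq_one.1 hz1

end

end Pool.Agent.H53.DC
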