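import Pool.Agent.H53.DC.Def
import Pool.Agent.H53.DC.Pos
import Pool.Agent.H53.Lib.R_pool_sql_team_seeded_3997aac3.Q227.CD.Ram

/-!
# Descent
-/

set_option autoImplicit false
set_option linter.unusedSectionVars false

namespace Pool.Agent.H53.DC

open NumberField IsDedekindDomain Polynomial Topology
open Pool.Agent.W401.Cheb (GK IsFrob IsInert)
open Pool.Agent.N60.GD (Dat Glue IrrOn conj_of_trace)
open Pool.Agent.Q15.GR (frob_dense isFrob_conj)

section dense

variable {K : Type} [Field K] [NumberField K]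

/-- two continuous functions on an open set which agree at the Frobenius elements agree -/
theorem eq_on_open {X : Type*} [TopologicalSpace X] [T2Space X]
    {S : Set (HeightOneSpectrum (𝓞 K))} (hS : S.Finite) {W : Set (GK K)} (hW : IsOpen W)
    {f f' : W → X} (hf : Continuous f) (hf' : Continuous f')
    (h : ∀ y : W, (∃ v ∉ S, IsFrob v (y : GK K)) → f y = f' y) : f = f' := by
  refine hf.ext_on ((frob_dense S hS).preimage hW.isOpenMap_subtype_val) hf' ?_
  intro y hy
  exact h y hy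

theorem isFrobPow_one {v : HeightOneSpectrum (𝓞 K)} {σ : GK K} : IsFrobPow v 1 σ ↔ IsFrob v σ := by
  unfold IsFrobPow IsFrob
  simp only [pow_one]

theorem isInert_conj {v : HeightOneSpectrum (𝓞 K)} {σ : GK K} (h : IsInert v σ)
    (ρ : GK K) : IsInert v (ρ * σ * ρ⁻¹) := Pool.Agent.Q227.CD.isInert_conj h ρ

end dense

section

variable {K : Type} [Field K] [NumberField K] {k : Type} [Field k] {n : ℕ}

theorem trace_of_charpoly {A B : Matrix (Fin n) (Fin n) k} (hn : 0 < n)
    (h : A.charpoly = B.charpoly) : A.trace = B.trace := by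
  have hne : Nonempty (Fin n) := ⟨⟨0, hn⟩⟩
  rw [Matrix.trace_eq_neg_charpoly_coeff, Matrix.trace_eq_neg_charpoly_coeff, h]

theorem det_of_charpoly {A : Matrix (Fin n) (Fin n) k} {α : Fin n → k}
    (h : A.charpoly = ∏ l, (X - C (α l))) : A.det = ∏ l, α l := by
  rw [Matrix.det_eq_sign_charpoly_coeff, h, Polynomial.coeff_zero_eq_eval_zero,
    Polynomial.eval_prod]
  simp only [eval_sub, eval_X, eval_C, zero_sub]
  rw [Finset.prod_neg, Finset.card_univ, Fintype.card_fin, ← mul_assoc, ← pow_add, ← two_mul,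
    pow_mul]
  simp

variable [TopologicalSpace k] [IsTopologicalRing k] [T2Space k]

theorem cont_trace {X : Type*} [TopologicalSpace X] {f : X → GL (Fin n) k} (hf : Continuous f) :
    Continuous fun x => (f x : Matrix (Fin n) (Fin n) k).trace :=
  (Units.continuous_val.comp hf).matrix_trace

theorem cont_det {X : Type*} [TopologicalSpace X] {f : X → GL (Fin n) k} (hf : Continuous f) :
    Continuous fun x => (f x : Matrix (Fin n) (Fin n) k).det :=
  (Units.continuous_val.comp hf).matrix_det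

variable [IsAlgClosed k] [CharZero k]

/-- **The positive part** -/
theorem descends {Γ : Type} [Group Γ] [Finite Γ] (π : GK K →* Γ) (hπ : Function.Surjective π)
    (hπo : IsOpen (π.ker : Set (GK K))) {𝓤 : Set (Subgroup Γ)} (hcov : Covers 𝓤)
    (hcop : (Nat.card (pr 𝓤).ker).Coprime n) : Descends n π.ker (fields π 𝓤) k := by
  classical
  intro S α δ hS hδ hex
  have hex' : ∀ i : 𝓤, ∃ ρ : cm π 𝓤 i →* GL (Fin n) k, Good π.ker S α (cm π 𝓤 i) ρ :=
    fun i => hex _ ⟨i.1, i.2, rfl⟩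
  choose ρ hρ using hex'
  have hopen : ∀ i : 𝓤, IsOpen (cm π 𝓤 i : Set (GK K)) := fun i =>
    Subgroup.isOpen_mono (fun x hx => by
      change π x ∈ i.1
      rw [MonoidHom.mem_ker.1 hx]
      exact i.1.one_mem) hπo
  let s : 𝓤 → GK K → GL (Fin n) k := fun i g => if h : g ∈ cm π 𝓤 i then ρ i ⟨g, h⟩ else 1
  have hs : ∀ i g (h : g ∈ cm π 𝓤 i), s i g = ρ i ⟨g, h⟩ := fun i g h => dif_pos h
  have hN : ∀ i : 𝓤, π.ker ≤ cm π 𝓤 i := fun i x hx => by
    change π x ∈ i.1
    rw [MonoidHom.mem_ker.1 hx]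
    exact i.1.one_mem
  obtain ⟨U₀, hU₀, -⟩ := hcov 1
  have hn : 0 < n := (hρ ⟨U₀, hU₀⟩).2.1.1
  have htr : ∀ i j (g u : GK K), u ∈ cm π 𝓤 i → g * u * g⁻¹ ∈ cm π 𝓤 j →
      (s j (g * u * g⁻¹) : Matrix (Fin n) (Fin n) k).trace =
        (s i u : Matrix (Fin n) (Fin n) k).trace := by
    intro i j g u hu hgu
    let W : Set (GK K) := {y | y ∈ cm π 𝓤 i ∧ g * y * g⁻¹ ∈ cm π 𝓤 j}
    have hcg : Continuous fun y : GK K => g * y * g⁻¹ := by fun_prop
    have hW : IsOpen W := (hopen i).inter ((hopen j).preimage hcg)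
    have h1 := eq_on_open hS hW
      (f := fun y : W => (ρ j ⟨g * y * g⁻¹, y.2.2⟩ : Matrix (Fin n) (Fin n) k).trace)
      (f' := fun y : W => (ρ i ⟨y, y.2.1⟩ : Matrix (Fin n) (Fin n) k).trace)
      (cont_trace ((hρ j).1.comp ((hcg.comp continuous_subtype_val).subtype_mk fun y : W => y.2.2)))
      (cont_trace ((hρ i).1.comp (continuous_subtype_val.subtype_mk fun y : W => y.2.1))) (by
        rintro ⟨y, hy⟩ ⟨v, hv, hyv⟩
        change (ρ j ⟨g * y * g⁻¹, hy.2⟩ : Matrix (Fin n) (Fin n) k).trace =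
          (ρ i ⟨y, hy.1⟩ : Matrix (Fin n) (Fin n) k).trace
        apply trace_of_charpoly hn
        rw [((hρ j).2.2 v hv).2 1 ⟨g * y * g⁻¹, hy.2⟩ one_pos
            (isFrobPow_one.2 (isFrob_conj hyv g)),
          ((hρ i).2.2 v hv).2 1 ⟨y, hy.1⟩ one_pos (isFrobPow_one.2 hyv)])
    rw [hs j _ hgu, hs i _ hu]
    exact congrFun h1 ⟨u, hu, hgu⟩
  have D : Dat π.ker (cm π 𝓤) s :=
    { hNU := hN
      hom := fun i u hu v hv => by
        rw [hs i _ hu, hs i _ hv, hs i _ (mul_mem hu hv), ← map_mul]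
        rfl
      irr := fun i => ⟨hn, fun W hW => (hρ i).2.1.2 W fun σ hσ w hw => by
        have h1 := hW σ hσ w hw
        rw [hs i _ σ.2] at h1
        exact h1⟩
      tr := htr
      cov := fun g => by
        obtain ⟨U, hU, x, hx⟩ := hcov (π g)
        obtain ⟨x, rfl⟩ := hπ x
        refine ⟨⟨U, hU⟩, x, ?_⟩
        change π (x * g * x⁻¹) ∈ U
        rwa [map_mul, map_mul, map_inv] }
  obtain ⟨i₀, T, W, hT⟩ := D.exists_glue
  -- the determinants
  have hdet : ∀ i, ∀ u ∈ cm π 𝓤 i, Matrix.GeneralLinearGroup.det (s i u) = δ u := by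
    intro i u hu
    have h1 := eq_on_open hS (hopen i)
      (f := fun y : (cm π 𝓤 i : Set (GK K)) => (ρ i y : Matrix (Fin n) (Fin n) k).det)
      (f' := fun y : (cm π 𝓤 i : Set (GK K)) => ((δ y : kˣ) : k))
      (cont_det (hρ i).1) (Units.continuous_val.comp (hδ.1.comp continuous_subtype_val)) (by
        rintro ⟨y, hy⟩ ⟨v, hv, hyv⟩
        change (ρ i ⟨y, hy⟩ : Matrix (Fin n) (Fin n) k).det = ((δ y : kˣ) : k)
        have h2 := ((hρ i).2.2 v hv).2 1 ⟨y, hy⟩ one_pos (isFrobPow_one.2 hyv)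
        rw [det_of_charpoly h2, hδ.2 v hv y hyv]
        simp only [pow_one])
    apply Units.ext
    rw [hs i _ hu, Matrix.GeneralLinearGroup.val_det_apply]
    exact congrFun h1 ⟨u, hu⟩
  have hhom := glue_hom π hπ hcop D W δ hdet
  let R : GK K →* GL (Fin n) k :=
    { toFun := T
      map_one' := Glue.one D W
      map_mul' := hhom }
  have hRdet : ∀ σ, Matrix.GeneralLinearGroup.det (R σ) = δ σ := by
    intro x
    obtain ⟨i, y, hy⟩ := D.cov x
    change Matrix.GeneralLinearGroup.det (T x) = δ x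
    rw [W.det i y x hy, hdet i _ hy, map_mul, map_mul, map_inv, mul_comm, ← mul_assoc,
      inv_mul_cancel, one_mul]
  -- continuity
  have hRcont : Continuous R := by
    refine continuous_of_continuousAt_one R ?_
    let i : 𝓤 := ⟨U₀, hU₀⟩
    obtain ⟨Q, hQ⟩ := W.loc i 1
    have h2 : (R ∘ (Subtype.val : cm π 𝓤 i → GK K)) = fun σ => Q⁻¹ * ρ i σ * Q := by
      funext σ
      have h3 := hQ σ (by rw [one_mul, inv_one, mul_one]; exact σ.2)
      rw [one_mul, inv_one, mul_one, hs i _ σ.2] at h3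
      exact h3
    have h1 : Continuous (R ∘ (Subtype.val : cm π 𝓤 i → GK K)) := by
      rw [h2]
      exact (continuous_const.mul (hρ i).1).mul continuous_const
    have h3 : IsOpenEmbedding (Subtype.val : cm π 𝓤 i → GK K) :=
      (hopen i).isOpenEmbedding_subtypeVal
    exact (h3.continuousAt_iff (f := (Subtype.val : cm π 𝓤 i → GK K)) (g := R)
      (x := (1 : cm π 𝓤 i))).1 h1.continuousAt
  refine ⟨R, hRcont, ?_, hRdet, ?_⟩
  · -- attached
    intro v hv
    refine ⟨fun σ hσ => ?_, fun σ hσ => ?_⟩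
    · obtain ⟨i, x, hx⟩ := D.cov σ
      obtain ⟨Q, hQ⟩ := W.loc i x
      change T σ = 1
      rw [hQ σ hx, hs i _ hx, ((hρ i).2.2 v hv).1 ⟨x * σ * x⁻¹, hx⟩ (isInert_conj hσ x), mul_one,
        inv_mul_cancel]
    · obtain ⟨i, x, hx⟩ := D.cov σ
      obtain ⟨Q, hQ⟩ := W.loc i x
      change (T σ : Matrix (Fin n) (Fin n) k).charpoly = _
      have h1 := ((hρ i).2.2 v hv).2 1 ⟨x * σ * x⁻¹, hx⟩ one_pos
        (isFrobPow_one.2 (isFrob_conj hσ x))
      simp only [pow_one] at h1
      rw [hQ σ hx, hs i _ hx, Units.val_mul, Units.val_mul, ← h1]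
      rw [Matrix.coe_units_inv]
      exact Matrix.charpoly_units_conj' Q _
  · -- the restrictions
    rintro _ ⟨U, hU, rfl⟩ ρ' hρ'
    let i : 𝓤 := ⟨U, hU⟩
    have hi : cm π 𝓤 i = U.comap π := rfl
    let s' : GK K → GL (Fin n) k := fun g => if h : g ∈ U.comap π then ρ' ⟨g, h⟩ else 1
    have hs' : ∀ g (h : g ∈ U.comap π), s' g = ρ' ⟨g, h⟩ := fun g h => dif_pos h
    obtain ⟨P, hP⟩ := conj_of_trace (U.comap π) (f := s') (f' := T)
      (fun u hu v hv => by rw [hs' _ hu, hs' _ hv, hs' _ (mul_mem hu hv), ← map_mul]; rfl)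
      (fun u hu v hv => hhom u v)
      ⟨hn, fun V hV => hρ'.2.1.2 V fun σ hσ w hw => by
        have h1 := hV σ σ.2 w hw
        rw [hs' _ σ.2] at h1
        exact h1⟩
      (W.irr.mono (hN i)) (fun u hu => by
        have h1 := eq_on_open hS (hopen i)
          (f := fun y : (U.comap π : Set (GK K)) => (ρ' y : Matrix (Fin n) (Fin n) k).trace)
          (f' := fun y : (U.comap π : Set (GK K)) => (R y : Matrix (Fin n) (Fin n) k).trace)
          (cont_trace hρ'.1) (cont_trace (hRcont.comp continuous_subtype_val)) (by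
            rintro ⟨y, hy⟩ ⟨v, hv, hyv⟩
            change (ρ' ⟨y, hy⟩ : Matrix (Fin n) (Fin n) k).trace =
              (T y : Matrix (Fin n) (Fin n) k).trace
            have h2 := W.trace i 1 y (by rw [one_mul, inv_one, mul_one]; exact hy)
            rw [one_mul, inv_one, mul_one, hs i _ hy] at h2
            rw [h2]
            apply trace_of_charpoly hn
            rw [(hρ'.2.2 v hv).2 1 ⟨y, hy⟩ one_pos (isFrobPow_one.2 hyv),
              ((hρ i).2.2 v hv).2 1 ⟨y, hy⟩ one_pos (isFrobPow_one.2 hyv)])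
        rw [hs' _ hu]
        exact congrFun h1 ⟨u, hu⟩)
    refine ⟨P, fun σ => ?_⟩
    have h1 := hP σ σ.2
    rw [hs' _ σ.2] at h1
    exact h1

end

end Pool.Agent.H53.DC
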