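import Pool.Agent.H53.DC.Neg
import Pool.Agent.H53.DC.NT

/-!
# Four quadratic extensions suffice, three never do
-/

set_option autoImplicit false

namespace Pool.Agent.H53.DC

open Subgroup
open Pool.Agent.W401.Cheb (GK)

/-- the group of the triquadratic case -/
abbrev T3 : Type := ℤˣ × ℤˣ × ℤˣ

def p1 : T3 →* ℤˣ := MonoidHom.fst _ _
def p2 : T3 →* ℤˣ := (MonoidHom.fst _ _).comp (MonoidHom.snd _ _)
def p3 : T3 →* ℤˣ := (MonoidHom.snd _ _).comp (MonoidHom.snd _ _)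

@[simp] theorem p1_mk (x y z : ℤˣ) : p1 (x, y, z) = x := rfl
@[simp] theorem p2_mk (x y z : ℤˣ) : p2 (x, y, z) = y := rfl
@[simp] theorem p3_mk (x y z : ℤˣ) : p3 (x, y, z) = z := rfl

theorem mem_k1 {x y z : ℤˣ} : (x, y, z) ∈ p1.ker ↔ x = 1 := Iff.rfl
theorem mem_k2 {x y z : ℤˣ} : (x, y, z) ∈ p2.ker ↔ y = 1 := Iff.rfl
theorem mem_k12 {x y z : ℤˣ} : (x, y, z) ∈ (p1 * p2).ker ↔ x * y = 1 := Iff.rfl
theorem mem_k3 {x y z : ℤˣ} : (x, y, z) ∈ p3.ker ↔ z = 1 := Iff.rfl

/-- the four subgroups -/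
def fam4 : Set (Subgroup T3) := {p1.ker, p2.ker, (p1 * p2).ker, p3.ker}

theorem cov4 : Covers fam4 := by
  intro g
  obtain ⟨x, y, z⟩ := g
  rcases Int.units_eq_one_or x with hx | hx
  · exact ⟨p1.ker, by simp [fam4], 1, by simp [mem_k1, hx]⟩
  · rcases Int.units_eq_one_or y with hy | hy
    · exact ⟨p2.ker, by simp [fam4], 1, by simp [mem_k2, hy]⟩
    · exact ⟨(p1 * p2).ker, by simp [fam4], 1, by simp [mem_k12, hx, hy]⟩

theorem br4_comm (g h : T3) : br fam4 g * br fam4 h = br fam4 h * br fam4 g := by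
  have h1 := br_conj (𝓤 := fam4) g h
  rw [mul_comm g h, mul_inv_cancel_right, eq_mul_inv_iff_mul_eq] at h1
  exact h1.symm

theorem br4_split (x y z : ℤˣ) :
    br fam4 (x, y, z) = br fam4 (x, y, 1) * br fam4 (1, 1, z) := by
  have h0 : ((x, y, z) : T3) = (x, y, 1) * (1, 1, z) := by simp
  rcases Int.units_eq_one_or x with hx | hx
  · rw [h0, br_mul (U := p1.ker) (by simp [fam4]) (by simp [mem_k1, hx])
      (by simp [mem_k1])]
  · rcases Int.units_eq_one_or y with hy | hy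
    · rw [h0, br_mul (U := p2.ker) (by simp [fam4]) (by simp [mem_k2, hy])
        (by simp [mem_k2])]
    · rw [h0, br_mul (U := (p1 * p2).ker) (by simp [fam4])
        (by simp [mem_k12, hx, hy]) (by simp [mem_k12])]

theorem br4_mul (g h : T3) : br fam4 (g * h) = br fam4 g * br fam4 h := by
  obtain ⟨x, y, z⟩ := g
  obtain ⟨x', y', z'⟩ := h
  have e1 : br fam4 (x * x', y * y', 1) = br fam4 (x, y, 1) * br fam4 (x', y', 1) := by
    rw [← br_mul (U := p3.ker) (by simp [fam4]) (by simp [mem_k3])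
      (by simp [mem_k3])]
    simp
  have e2 : br fam4 (1, 1, z * z') = br fam4 (1, 1, z) * br fam4 (1, 1, z') := by
    rw [← br_mul (U := p1.ker) (by simp [fam4]) (by simp [mem_k1])
      (by simp [mem_k1])]
    simp
  rw [Prod.mk_mul_mk, Prod.mk_mul_mk, br4_split, e1, e2, br4_split x y z, br4_split x' y' z']
  rw [mul_assoc, mul_assoc, ← mul_assoc (br fam4 (x', y', 1)), br4_comm (x', y', 1) (1, 1, z),
    mul_assoc]

theorem ker4 : Nat.card (pr fam4).ker = 1 := by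
  have key : ∀ u : Ext fam4, ∃ g, u = br fam4 g := by
    intro u
    have hu : u ∈ closure (Set.range (br fam4)) := by rw [closure_br]; trivial
    induction hu using Subgroup.closure_induction with
    | mem x hx => obtain ⟨y, rfl⟩ := hx; exact ⟨y, rfl⟩
    | one => exact ⟨1, (br_one cov4).symm⟩
    | mul x y _ _ hx hy =>
      obtain ⟨g, rfl⟩ := hx
      obtain ⟨h, rfl⟩ := hy
      exact ⟨g * h, (br4_mul g h).symm⟩
    | inv x _ hx =>
      obtain ⟨g, rfl⟩ := hx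
      refine ⟨g⁻¹, ?_⟩
      rw [inv_eq_iff_mul_eq_one, ← br4_mul, mul_inv_cancel, br_one cov4]
  rw [Nat.card_eq_one_iff_unique]
  constructor
  · constructor
    rintro ⟨a, ha⟩ ⟨b, hb⟩
    obtain ⟨g, rfl⟩ := key a
    obtain ⟨h, rfl⟩ := key b
    rw [MonoidHom.mem_ker, pr_br] at ha hb
    subst ha
    subst hb
    rfl
  · exact ⟨1⟩

/-- **Three quadratic extensions never suffice.** -/
theorem two_dvd {Γ : Type} [Group Γ] [Finite Γ] {U₁ U₂ U₃ : Subgroup Γ} (h₁ : U₁.index = 2)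
    (h₂ : U₂.index = 2) (h₃ : U₃.index = 2) (hcov : Covers ({U₁, U₂, U₃} : Set (Subgroup Γ))) :
    2 ∣ Nat.card (pr ({U₁, U₂, U₃} : Set (Subgroup Γ))).ker := by
  classical
  have n₁ : U₁.Normal := Subgroup.normal_of_index_eq_two h₁
  have n₂ : U₂.Normal := Subgroup.normal_of_index_eq_two h₂
  have n₃ : U₃.Normal := Subgroup.normal_of_index_eq_two h₃
  have hc : ∀ g : Γ, g ∈ U₁ ∨ g ∈ U₂ ∨ g ∈ U₃ := by
    intro g
    obtain ⟨U, hU, x, hx⟩ := hcov g
    simp only [Set.mem_insert_iff, Set.mem_singleton_iff] at hU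
    rcases hU with rfl | rfl | rfl
    · left
      have := n₁.conj_mem _ hx x⁻¹
      simpa [mul_assoc] using this
    · right; left
      have := n₂.conj_mem _ hx x⁻¹
      simpa [mul_assoc] using this
    · right; right
      have := n₃.conj_mem _ hx x⁻¹
      simpa [mul_assoc] using this
  -- a group is not the union of two proper subgroups
  have two : ∀ A B : Subgroup Γ, A.index = 2 → B.index = 2 → ∃ h, h ∉ A ∧ h ∉ B := by
    intro A B hA hB
    by_contra hcon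
    push Not at hcon
    have hA' : A ≠ ⊤ := by
      rintro rfl
      rw [Subgroup.index_top] at hA
      omega
    have hB' : B ≠ ⊤ := by
      rintro rfl
      rw [Subgroup.index_top] at hB
      omega
    obtain ⟨a, ha⟩ : ∃ a, a ∉ A := by
      by_contra hc
      push Not at hc
      exact hA' (eq_top_iff.2 fun x _ => hc x)
    obtain ⟨b, hb⟩ : ∃ b, b ∉ B := by
      by_contra hc
      push Not at hc
      exact hB' (eq_top_iff.2 fun x _ => hc x)
    have haB : a ∈ B := hcon a ha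
    have hbA : b ∈ A := by
      by_contra hc
      exact hb (hcon b hc)
    by_cases hab : a * b ∈ A
    · exact ha ((Subgroup.mul_mem_cancel_right A hbA).1 hab)
    · exact hb ((Subgroup.mul_mem_cancel_left B haB).1 (hcon _ hab))
  have inter : ∀ A B C : Subgroup Γ, A.index = 2 → B.index = 2 →
      (∀ g, g ∈ A ∨ g ∈ B ∨ g ∈ C) → ∀ g, g ∈ A → g ∈ B → g ∈ C := by
    intro A B C hA hB hc g hgA hgB
    obtain ⟨h, hhA, hhB⟩ := two A B hA hB
    have hC : h ∈ C := ((hc h).resolve_left hhA).resolve_left hhB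
    have h1 : g * h ∉ A := fun hh => hhA ((Subgroup.mul_mem_cancel_left A hgA).1 hh)
    have h2 : g * h ∉ B := fun hh => hhB ((Subgroup.mul_mem_cancel_left B hgB).1 hh)
    exact (Subgroup.mul_mem_cancel_right C hC).1 (((hc (g * h)).resolve_left h1).resolve_left h2)
  have i12 := inter U₁ U₂ U₃ h₁ h₂ hc
  have i13 := inter U₁ U₃ U₂ h₁ h₃ fun g => by
    rcases hc g with h | h | h
    exacts [Or.inl h, Or.inr (Or.inr h), Or.inr (Or.inl h)]
  have i23 := inter U₂ U₃ U₁ h₂ h₃ fun g => by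
    rcases hc g with h | h | h
    exacts [Or.inr (Or.inr h), Or.inl h, Or.inr (Or.inl h)]
  -- the function
  let N : Subgroup Γ := U₁ ⊓ U₂ ⊓ U₃
  let e : Γ → ℤˣ := fun g => if g ∈ N then 1 else -1
  have he : ∀ g, e g = if g ∈ N then 1 else -1 := fun g => rfl
  have nN : N.Normal := inferInstance
  have key : ∀ (A B : Subgroup Γ), B.index = 2 → (∀ g, g ∈ A → (g ∈ N ↔ g ∈ B)) →
      ∀ g ∈ A, ∀ h ∈ A, e (g * h) = e g * e h := by
    intro A B hB hAB g hg h hh
    rw [he, he, he]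
    simp only [hAB g hg, hAB h hh, hAB _ (A.mul_mem hg hh)]
    have h1 := Subgroup.mul_mem_iff_of_index_two hB (a := g) (b := h)
    by_cases hgB : g ∈ B <;> by_cases hhB : h ∈ B <;> simp [h1, hgB, hhB]
  have hm : ∀ g, g ∈ N ↔ g ∈ U₁ ∧ g ∈ U₂ ∧ g ∈ U₃ := by
    intro g
    simp only [N, Subgroup.mem_inf, and_assoc]
  have e1 : ∀ U ∈ ({U₁, U₂, U₃} : Set (Subgroup Γ)), ∀ g ∈ U, ∀ h ∈ U, e (g * h) = e g * e h := by
    intro U hU
    simp only [Set.mem_insert_iff, Set.mem_singleton_iff] at hU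
    rcases hU with rfl | rfl | rfl
    · exact key _ U₂ h₂ fun g hg => by
        rw [hm]
        exact ⟨fun h => h.2.1, fun h => ⟨hg, h, i12 g hg h⟩⟩
    · exact key _ U₁ h₁ fun g hg => by
        rw [hm]
        exact ⟨fun h => h.1, fun h => ⟨h, hg, i12 g h hg⟩⟩
    · exact key _ U₁ h₁ fun g hg => by
        rw [hm]
        exact ⟨fun h => h.1, fun h => ⟨h, i13 g h hg, hg⟩⟩
  have e2 : ∀ x g, e (x * g * x⁻¹) = e x * e g * (e x)⁻¹ := by
    intro x g
    rw [mul_comm (e x), mul_inv_cancel_right, he, he]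
    have h1 : x * g * x⁻¹ ∈ N ↔ g ∈ N := by
      constructor
      · intro h
        have := nN.conj_mem _ h x⁻¹
        simpa [mul_assoc] using this
      · intro h
        exact nN.conj_mem _ h x
    simp only [h1]
  let E := lift e e1 e2
  have hE : ∀ g, E (br _ g) = e g := fun g => lift_br e e1 e2 g
  -- the element of the kernel
  obtain ⟨a, ha1, ha2⟩ := two U₂ U₃ h₂ h₃
  obtain ⟨b, hb1, hb2⟩ := two U₁ U₃ h₁ h₃
  have haN : a ∉ N := fun h => ha1 ((hm a).1 h).2.1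
  have hbN : b ∉ N := fun h => hb1 ((hm b).1 h).1
  have ha0 : a ∈ U₁ := by
    rcases hc a with h | h | h
    exacts [h, absurd h ha1, absurd h ha2]
  have hb0 : b ∈ U₂ := by
    rcases hc b with h | h | h
    exacts [absurd h hb1, h, absurd h hb2]
  have habN : a * b ∉ N := fun h => ha1 ((Subgroup.mul_mem_cancel_right U₂ hb0).1 ((hm _).1 h).2.1)
  let z : Ext ({U₁, U₂, U₃} : Set (Subgroup Γ)) := br _ a * br _ b * (br _ (a * b))⁻¹
  have hz : z ∈ (pr ({U₁, U₂, U₃} : Set (Subgroup Γ))).ker := by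
    rw [MonoidHom.mem_ker]
    simp only [z, map_mul, map_inv, pr_br, mul_inv_cancel]
  have hEz : E z = -1 := by
    simp only [z, map_mul, map_inv, hE, he, haN, hbN, habN, if_false]
    decide
  have hfin : Finite (Ext ({U₁, U₂, U₃} : Set (Subgroup Γ))) := finite_ext hcov
  -- the order
  have h3 : orderOf z ∣ Nat.card (pr ({U₁, U₂, U₃} : Set (Subgroup Γ))).ker := by
    have := orderOf_dvd_natCard (⟨z, hz⟩ : (pr ({U₁, U₂, U₃} : Set (Subgroup Γ))).ker)
    rwa [Subgroup.orderOf_mk] at this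
  refine dvd_trans ?_ h3
  have h4 : orderOf (E z) ∣ orderOf z := orderOf_map_dvd E z
  rw [hEz] at h4
  refine dvd_trans ?_ h4
  have h5 : orderOf (-1 : ℤˣ) = 2 := by
    rw [orderOf_eq_prime_iff]
    exact ⟨by decide, by decide⟩
  rw [h5]

section fields

open NumberField

/-- the order of the kernel of `Ext 𝓤 → Γ` -/
noncomputable def kerOrder {Γ : Type} [Group Γ] (𝓤 : Set (Subgroup Γ)) : ℕ := Nat.card (pr 𝓤).ker

/-- `Ext 𝓤` is a finite central extension of `Γ`. -/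
def FiniteCentral {Γ : Type} [Group Γ] (𝓤 : Set (Subgroup Γ)) : Prop :=
  Finite (Ext 𝓤) ∧ Function.Surjective (pr 𝓤) ∧ (pr 𝓤).ker ≤ Subgroup.center (Ext 𝓤)

/-- The continuous quadratic characters `χ₁`, `χ₂`, `χ₃` are independent: `K₁`, `K₂` and `K₄` are three
independent quadratic extensions of `K`. -/
def Independent {K : Type} [Field K] (χ₁ χ₂ χ₃ : GK K →* ℤˣ) : Prop :=
  IsOpen (χ₁.ker : Set (GK K)) ∧ IsOpen (χ₂.ker : Set (GK K)) ∧ IsOpen (χ₃.ker : Set (GK K)) ∧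
    ∀ a b c : ℤˣ, ∃ σ, χ₁ σ = a ∧ χ₂ σ = b ∧ χ₃ σ = c

/-- Descent from the four quadratic extensions `K₁`, `K₂`, `K₃` (the third quadratic extension in
`K₁ K₂`) and `K₄` of `K` which are given by the characters `χ₁`, `χ₂`, `χ₁ χ₂` and `χ₃`, for all `n` and
all coefficients. -/
def FourSuffice {K : Type} [Field K] [NumberField K] (χ₁ χ₂ χ₃ : GK K →* ℤˣ) : Prop :=
  ∀ (n : ℕ) (k : Type) [Field k] [CharZero k] [IsAlgClosed k] [TopologicalSpace k]
    [IsTopologicalRing k] [T2Space k],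
    Descends n (χ₁.ker ⊓ χ₂.ker ⊓ χ₃.ker) {χ₁.ker, χ₂.ker, (χ₁ * χ₂).ker, χ₃.ker} k

/-- **Four quadratic extensions suffice.** -/
theorem four_descends {K : Type} [Field K] [NumberField K] {k : Type} [Field k] {n : ℕ}
    [TopologicalSpace k] [IsTopologicalRing k] [T2Space k] [IsAlgClosed k] [CharZero k]
    (χ₁ χ₂ χ₃ : GK K →* ℤˣ) (h₁ : IsOpen (χ₁.ker : Set (GK K))) (h₂ : IsOpen (χ₂.ker : Set (GK K)))
    (h₃ : IsOpen (χ₃.ker : Set (GK K)))
    (hs : ∀ a b c : ℤˣ, ∃ σ, χ₁ σ = a ∧ χ₂ σ = b ∧ χ₃ σ = c) :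
    Descends n (χ₁.ker ⊓ χ₂.ker ⊓ χ₃.ker) {χ₁.ker, χ₂.ker, (χ₁ * χ₂).ker, χ₃.ker} k := by
  let π : GK K →* T3 := χ₁.prod (χ₂.prod χ₃)
  have hπ : Function.Surjective π := by
    rintro ⟨a, b, c⟩
    obtain ⟨σ, ha, hb, hc⟩ := hs a b c
    exact ⟨σ, by simp only [π, MonoidHom.prod_apply, ha, hb, hc]⟩
  have hker : π.ker = χ₁.ker ⊓ χ₂.ker ⊓ χ₃.ker := by
    ext σ
    simp only [π, MonoidHom.mem_ker, MonoidHom.prod_apply, Prod.mk_eq_one, Subgroup.mem_inf,
      and_assoc]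
  have hπo : IsOpen (π.ker : Set (GK K)) := by
    rw [hker]
    exact (h₁.inter h₂).inter h₃
  have hf : fields π fam4 = {χ₁.ker, χ₂.ker, (χ₁ * χ₂).ker, χ₃.ker} := by
    have e1 : p1.ker.comap π = χ₁.ker := rfl
    have e2 : p2.ker.comap π = χ₂.ker := rfl
    have e3 : (p1 * p2).ker.comap π = (χ₁ * χ₂).ker := rfl
    have e4 : p3.ker.comap π = χ₃.ker := rfl
    ext V
    simp only [fields, fam4, Set.mem_setOf_eq, Set.mem_insert_iff, Set.mem_singleton_iff,
      exists_eq_or_imp, exists_eq_left, e1, e2, e3, e4]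
  have h := descends (k := k) (n := n) π hπ hπo cov4 (by rw [ker4]; exact Nat.coprime_one_left n)
  rwa [hf, hker] at h

end fields

end Pool.Agent.H53.DC
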