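import Mathlib

/-!
# The universal extension of a finite group with respect to a family of subgroups
-/

set_option autoImplicit false

namespace Pool.Agent.H53.DC

open Subgroup
open scoped commutatorElement

variable {Γ : Type} [Group Γ]

/-- the relators -/
def rels (𝓤 : Set (Subgroup Γ)) : Set (FreeGroup Γ) :=
  {r | (∃ U ∈ 𝓤, ∃ g ∈ U, ∃ h ∈ U,
      r = FreeGroup.of g * FreeGroup.of h * (FreeGroup.of (g * h))⁻¹) ∨
    ∃ x g : Γ, r = FreeGroup.of x * FreeGroup.of g * (FreeGroup.of x)⁻¹ *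
      (FreeGroup.of (x * g * x⁻¹))⁻¹}

/-- the universal extension -/
abbrev Ext (𝓤 : Set (Subgroup Γ)) : Type := PresentedGroup (rels 𝓤)

variable (𝓤 : Set (Subgroup Γ))

/-- the generators -/
def br (g : Γ) : Ext 𝓤 := PresentedGroup.of g

variable {𝓤}

theorem br_mul {U : Subgroup Γ} (hU : U ∈ 𝓤) {g h : Γ} (hg : g ∈ U) (hh : h ∈ U) :
    br 𝓤 (g * h) = br 𝓤 g * br 𝓤 h := by
  have h1 : PresentedGroup.mk (rels 𝓤)
      (FreeGroup.of g * FreeGroup.of h * (FreeGroup.of (g * h))⁻¹) = 1 :=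
    PresentedGroup.one_of_mem (Or.inl ⟨U, hU, g, hg, h, hh, rfl⟩)
  rw [map_mul, map_mul, map_inv, mul_inv_eq_one] at h1
  exact h1.symm

theorem br_conj (x g : Γ) : br 𝓤 (x * g * x⁻¹) = br 𝓤 x * br 𝓤 g * (br 𝓤 x)⁻¹ := by
  have h1 : PresentedGroup.mk (rels 𝓤)
      (FreeGroup.of x * FreeGroup.of g * (FreeGroup.of x)⁻¹ *
      (FreeGroup.of (x * g * x⁻¹))⁻¹) = 1 :=
    PresentedGroup.one_of_mem (Or.inr ⟨x, g, rfl⟩)
  rw [map_mul, map_mul, map_mul, map_inv, map_inv, mul_inv_eq_one] at h1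
  exact h1.symm

section lift

variable {G : Type*} [Group G] (f : Γ → G)
  (h1 : ∀ U ∈ 𝓤, ∀ g ∈ U, ∀ h ∈ U, f (g * h) = f g * f h)
  (h2 : ∀ x g, f (x * g * x⁻¹) = f x * f g * (f x)⁻¹)

include h1 h2 in
theorem lift_aux : ∀ r ∈ rels 𝓤, FreeGroup.lift f r = 1 := by
  rintro r (⟨U, hU, g, hg, h, hh, rfl⟩ | ⟨x, g, rfl⟩)
  · rw [map_mul, map_mul, map_inv, FreeGroup.lift_apply_of, FreeGroup.lift_apply_of,
      FreeGroup.lift_apply_of, h1 U hU g hg h hh, mul_inv_cancel]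
  · rw [map_mul, map_mul, map_mul, map_inv, map_inv, FreeGroup.lift_apply_of,
      FreeGroup.lift_apply_of, FreeGroup.lift_apply_of, h2, mul_inv_cancel]

/-- the universal property -/
def lift : Ext 𝓤 →* G := PresentedGroup.toGroup (lift_aux f h1 h2)

theorem lift_br (g : Γ) : lift f h1 h2 (br 𝓤 g) = f g := PresentedGroup.toGroup.of _

end lift

variable (𝓤) in
/-- the projection -/
def pr : Ext 𝓤 →* Γ := lift (fun g => g) (fun _ _ _ _ _ _ => rfl) fun _ _ => rfl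

@[simp] theorem pr_br (g : Γ) : pr 𝓤 (br 𝓤 g) = g := lift_br _ _ _ g

theorem pr_surjective : Function.Surjective (pr 𝓤) := fun g => ⟨br 𝓤 g, pr_br g⟩

theorem closure_br : closure (Set.range (br 𝓤)) = ⊤ := PresentedGroup.closure_range_of _

theorem conj_br (u : Ext 𝓤) : ∀ g : Γ, u * br 𝓤 g * u⁻¹ = br 𝓤 (pr 𝓤 u * g * (pr 𝓤 u)⁻¹) := by
  have hu : u ∈ closure (Set.range (br 𝓤)) := by rw [closure_br]; trivial
  induction hu using Subgroup.closure_induction with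
  | mem x hx =>
    obtain ⟨y, rfl⟩ := hx
    intro g
    rw [pr_br, br_conj]
  | one => intro g; simp
  | mul x y _ _ hx hy =>
    intro g
    have h1 : x * y * br 𝓤 g * (x * y)⁻¹ = x * (y * br 𝓤 g * y⁻¹) * x⁻¹ := by group
    rw [h1, hy, hx]
    congr 1
    rw [map_mul]
    group
  | inv x _ hx =>
    intro g
    have h1 := hx ((pr 𝓤 x)⁻¹ * g * (pr 𝓤 x)⁻¹⁻¹)
    have h2 : pr 𝓤 x * ((pr 𝓤 x)⁻¹ * g * (pr 𝓤 x)⁻¹⁻¹) * (pr 𝓤 x)⁻¹ = g := by group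
    rw [h2] at h1
    rw [map_inv, ← h1]
    group

theorem ker_le_center : (pr 𝓤).ker ≤ center (Ext 𝓤) := by
  intro z hz
  rw [MonoidHom.mem_ker] at hz
  rw [Subgroup.mem_center_iff]
  intro u
  have hu : u ∈ closure (Set.range (br 𝓤)) := by rw [closure_br]; trivial
  have key : u ∈ Subgroup.centralizer {z} := by
    refine (Subgroup.closure_le _).2 ?_ hu
    rintro _ ⟨g, rfl⟩
    rw [SetLike.mem_coe, Subgroup.mem_centralizer_singleton_iff]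
    have h1 := conj_br z g
    rw [hz, one_mul, inv_one, mul_one, mul_inv_eq_iff_eq_mul] at h1
    exact h1.symm
  exact (Subgroup.mem_centralizer_singleton_iff.1 key)

theorem ker_comm {z : Ext 𝓤} (hz : pr 𝓤 z = 1) (u : Ext 𝓤) : z * u = u * z :=
  (Subgroup.mem_center_iff.1 (ker_le_center hz) u).symm

theorem exists_ker (u : Ext 𝓤) : ∃ z, pr 𝓤 z = 1 ∧ u = z * br 𝓤 (pr 𝓤 u) :=
  ⟨u * (br 𝓤 (pr 𝓤 u))⁻¹, by rw [map_mul, map_inv, pr_br, mul_inv_cancel], by group⟩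

/-- every element is conjugate to an element of a member of the family -/
def Covers (𝓤 : Set (Subgroup Γ)) : Prop := ∀ g : Γ, ∃ U ∈ 𝓤, ∃ x : Γ, x * g * x⁻¹ ∈ U

theorem br_one (hcov : Covers 𝓤) : br 𝓤 1 = 1 := by
  obtain ⟨U, hU, -⟩ := hcov 1
  have h1 := br_mul hU U.one_mem U.one_mem
  rw [mul_one] at h1
  exact mul_eq_left.1 h1.symm

theorem br_pow (hcov : Covers 𝓤) (g : Γ) (m : ℕ) : br 𝓤 (g ^ m) = br 𝓤 g ^ m := by
  obtain ⟨U, hU, x, hx⟩ := hcov g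
  have key : ∀ m : ℕ, br 𝓤 ((x * g * x⁻¹) ^ m) = br 𝓤 (x * g * x⁻¹) ^ m := by
    intro m
    induction m with
    | zero => rw [pow_zero, pow_zero, br_one hcov]
    | succ m ih => rw [pow_succ, br_mul hU (U.pow_mem hx m) hx, ih, pow_succ]
  have h1 := key m
  rw [conj_pow, br_conj, br_conj, conj_pow, mul_left_inj, mul_right_inj] at h1
  exact h1

theorem conj_ker {z : Ext 𝓤} (hz : pr 𝓤 z = 1) (u : Ext 𝓤) : z * u * z⁻¹ = u := by
  rw [ker_comm hz, mul_inv_cancel_right]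

theorem finite_ext [Finite Γ] (hcov : Covers 𝓤) : Finite (Ext 𝓤) := by
  -- the commutators
  have h1 : (commutatorSet (Ext 𝓤)).Finite := by
    refine (Set.finite_range fun p : Γ × Γ =>
      br 𝓤 p.1 * br 𝓤 p.2 * (br 𝓤 p.1)⁻¹ * (br 𝓤 p.2)⁻¹).subset ?_
    rintro _ ⟨u, v, rfl⟩
    refine ⟨(pr 𝓤 u, pr 𝓤 v), ?_⟩
    obtain ⟨z, hz, hu⟩ := exists_ker u
    obtain ⟨w, hw, hv⟩ := exists_ker v
    rw [commutatorElement_def]
    change br 𝓤 (pr 𝓤 u) * br 𝓤 (pr 𝓤 v) * (br 𝓤 (pr 𝓤 u))⁻¹ * (br 𝓤 (pr 𝓤 v))⁻¹ = _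
    set a := br 𝓤 (pr 𝓤 u)
    set b := br 𝓤 (pr 𝓤 v)
    have e1 : u * v * u⁻¹ * v⁻¹ = z * (a * v * a⁻¹) * z⁻¹ * v⁻¹ := by
      rw [hu]; group
    have e2 : a * v * a⁻¹ * v⁻¹ = a * (w * (b * a⁻¹ * b⁻¹) * w⁻¹) := by
      rw [hv]; group
    rw [e1, conj_ker hz, e2, conj_ker hw]
    group
  have : Finite (commutatorSet (Ext 𝓤)) := h1
  have hc : Finite (_root_.commutator (Ext 𝓤)) := inferInstance
  -- the quotient
  have hfg : Group.FG (Ext 𝓤) := Group.fg_iff.2 ⟨Set.range (br 𝓤), closure_br, Set.finite_range _⟩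
  have hfgA : Group.FG (Abelianization (Ext 𝓤)) :=
    Group.fg_of_surjective (f := Abelianization.of) (QuotientGroup.mk'_surjective _)
  have htor : ∀ x : Abelianization (Ext 𝓤), IsOfFinOrder x := by
    intro x
    obtain ⟨u, rfl⟩ : ∃ u, Abelianization.of u = x := QuotientGroup.mk'_surjective _ x
    have hu : u ∈ closure (Set.range (br 𝓤)) := by rw [closure_br]; trivial
    induction hu using Subgroup.closure_induction with
    | mem x hx =>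
      obtain ⟨g, rfl⟩ := hx
      refine MonoidHom.isOfFinOrder _ ?_
      rw [isOfFinOrder_iff_pow_eq_one]
      refine ⟨orderOf g, orderOf_pos g, ?_⟩
      rw [← br_pow hcov, pow_orderOf_eq_one, br_one hcov]
    | one => rw [map_one]; exact IsOfFinOrder.one
    | mul x y _ _ hx hy => rw [map_mul]; exact (Commute.all _ _).isOfFinOrder_mul hx hy
    | inv x _ hx => rw [map_inv]; exact hx.inv
  have hA : Finite (Abelianization (Ext 𝓤)) := CommGroup.finite_of_fg_isMulTorsion _ htor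
  have hA' : Finite (Ext 𝓤 ⧸ _root_.commutator (Ext 𝓤)) := hA
  exact Finite.of_equiv _ (Subgroup.groupEquivQuotientProdSubgroup
    (s := _root_.commutator (Ext 𝓤))).symm

theorem coc_mem (g h : Γ) : br 𝓤 g * br 𝓤 h * (br 𝓤 (g * h))⁻¹ ∈ (pr 𝓤).ker := by
  rw [MonoidHom.mem_ker, map_mul, map_mul, map_inv, pr_br, pr_br, pr_br, mul_inv_cancel]

/-- the cocycle -/
def coc (g h : Γ) : (pr 𝓤).ker := ⟨br 𝓤 g * br 𝓤 h * (br 𝓤 (g * h))⁻¹, coc_mem g h⟩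

/-- a homomorphism on the kernel which is trivial on the cocycle is trivial -/
theorem char_triv (hcov : Covers 𝓤) {A : Type*} [CommGroup A] (χ : (pr 𝓤).ker →* A)
    (h : ∀ g h : Γ, χ (coc g h) = 1) : χ = 1 := by
  have hmem : ∀ u : Ext 𝓤, u * (br 𝓤 (pr 𝓤 u))⁻¹ ∈ (pr 𝓤).ker := fun u => by
    rw [MonoidHom.mem_ker, map_mul, map_inv, pr_br, mul_inv_cancel]
  let f : Ext 𝓤 →* A :=
    { toFun := fun u => χ ⟨u * (br 𝓤 (pr 𝓤 u))⁻¹, hmem u⟩
      map_one' := by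
        have h1 : (⟨1 * (br 𝓤 (pr 𝓤 1))⁻¹, hmem 1⟩ : (pr 𝓤).ker) = 1 := by
          apply Subtype.ext
          change 1 * (br 𝓤 (pr 𝓤 1))⁻¹ = 1
          rw [map_one, br_one hcov, one_mul, inv_one]
        rw [h1, map_one]
      map_mul' := by
        intro u v
        rw [← map_mul, ← mul_one (χ (_ * _)), ← h (pr 𝓤 u) (pr 𝓤 v), ← map_mul]
        congr 1
        apply Subtype.ext
        change u * v * (br 𝓤 (pr 𝓤 (u * v)))⁻¹ =
          u * (br 𝓤 (pr 𝓤 u))⁻¹ * (v * (br 𝓤 (pr 𝓤 v))⁻¹) *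
            (br 𝓤 (pr 𝓤 u) * br 𝓤 (pr 𝓤 v) * (br 𝓤 (pr 𝓤 u * pr 𝓤 v))⁻¹)
        rw [map_mul]
        have h1 := ker_comm (MonoidHom.mem_ker.1 (hmem v)) (br 𝓤 (pr 𝓤 u))
        calc u * v * (br 𝓤 (pr 𝓤 u * pr 𝓤 v))⁻¹ = u * (br 𝓤 (pr 𝓤 u))⁻¹ *
            (br 𝓤 (pr 𝓤 u) * (v * (br 𝓤 (pr 𝓤 v))⁻¹)) *
              br 𝓤 (pr 𝓤 v) * (br 𝓤 (pr 𝓤 u * pr 𝓤 v))⁻¹ := by group
          _ = _ := by rw [← h1]; group }
  have hf : f = 1 := by
    apply PresentedGroup.ext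
    intro g
    change χ ⟨br 𝓤 g * (br 𝓤 (pr 𝓤 (br 𝓤 g)))⁻¹, hmem (br 𝓤 g)⟩ = 1
    have h1 : (⟨br 𝓤 g * (br 𝓤 (pr 𝓤 (br 𝓤 g)))⁻¹, hmem (br 𝓤 g)⟩ : (pr 𝓤).ker) = 1 := by
      apply Subtype.ext
      change br 𝓤 g * (br 𝓤 (pr 𝓤 (br 𝓤 g)))⁻¹ = 1
      rw [pr_br, mul_inv_cancel]
    rw [h1, map_one]
  ext z
  have h1 : f z = 1 := by rw [hf]; rfl
  change χ z = 1
  rw [← h1]
  change _ = χ _
  congr 1
  apply Subtype.ext
  change (z : Ext 𝓤) = z * (br 𝓤 (pr 𝓤 z))⁻¹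
  rw [MonoidHom.mem_ker.1 z.2, br_one hcov, inv_one, mul_one]

theorem exists_char [Finite Γ] (hcov : Covers 𝓤) {p : ℕ} (hp : p.Prime)
    (hdvd : p ∣ Nat.card (pr 𝓤).ker) (k : Type*) [Field k] [IsAlgClosed k] [CharZero k] :
    ∃ χ : (pr 𝓤).ker →* kˣ, (∀ z, χ z ^ p = 1) ∧ ∃ g h : Γ, χ (coc g h) ≠ 1 := by
  have : Finite (Ext 𝓤) := finite_ext hcov
  have : Fact p.Prime := ⟨hp⟩
  let _ : CommGroup (pr 𝓤).ker :=
    { (inferInstance : Group (pr 𝓤).ker) with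
      mul_comm := fun a b => Subtype.ext (ker_comm a.2 b) }
  let P : (pr 𝓤).ker →* (pr 𝓤).ker := powMonoidHom p
  have hP : P.range ≠ ⊤ := by
    intro h
    have h1 : Function.Surjective P := MonoidHom.range_eq_top.1 h
    have h2 : Function.Injective P := Finite.injective_iff_surjective.2 h1
    obtain ⟨x, hx⟩ := exists_prime_orderOf_dvd_card' p hdvd
    have h3 : P x = P 1 := by
      change x ^ p = 1 ^ p
      rw [one_pow, ← hx, pow_orderOf_eq_one]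
    have h4 := h2 h3
    rw [h4, orderOf_one] at hx
    exact hp.one_lt.ne hx
  obtain ⟨z, hz⟩ : ∃ z, z ∉ P.range := by
    by_contra hcon
    push Not at hcon
    exact hP ((Subgroup.eq_top_iff' _).2 hcon)
  have hne : (QuotientGroup.mk' P.range z) ≠ 1 := by
    intro h
    exact hz ((QuotientGroup.eq_one_iff z).1 h)
  have : NeZero (Monoid.exponent ((pr 𝓤).ker ⧸ P.range)) :=
    ⟨Monoid.exponent_ne_zero_of_finite⟩
  obtain ⟨φ, hφ⟩ := CommGroup.exists_apply_ne_one_of_hasEnoughRootsOfUnity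
    ((pr 𝓤).ker ⧸ P.range) k hne
  refine ⟨φ.comp (QuotientGroup.mk' P.range), fun y => ?_, ?_⟩
  · rw [← map_pow, MonoidHom.comp_apply]
    have h1 : QuotientGroup.mk' P.range (y ^ p) = 1 := (QuotientGroup.eq_one_iff _).2 ⟨y, rfl⟩
    rw [h1, map_one]
  · by_contra hcon
    push Not at hcon
    have h1 := char_triv hcov (φ.comp (QuotientGroup.mk' P.range)) hcon
    apply hφ
    have h2 := DFunLike.congr_fun h1 z
    exact h2

end Pool.Agent.H53.DC
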