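import Mathlib

/-!
# The group of signed permutations, and its representation
-/

set_option autoImplicit false

namespace Pool.Agent.H53.DC

open Matrix

variable (n : ℕ)

/-- signed permutations -/
abbrev SP : Type := (Fin n → ℤˣ) ⋊[mulAutArrow] Equiv.Perm (Fin n)

instance : Finite (SP n) := Finite.of_equiv _ SemidirectProduct.equivProd.symm

variable {n}

/-- a sign in the field -/
abbrev sgk (k : Type) [Field k] (u : ℤˣ) : k := ((u : ℤ) : k)

variable {k : Type} [Field k]

theorem sgk_mul (u v : ℤˣ) : sgk k (u * v) = sgk k u * sgk k v := by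
  simp [sgk]

/-- the matrices of signed permutations -/
def spMat (b : SP n) : Matrix (Fin n) (Fin n) k :=
  Matrix.of fun i j => if b.right⁻¹ i = j then sgk k (b.left i) else 0

theorem spMat_mulVec (b : SP n) (w : Fin n → k) (i : Fin n) :
    (spMat b).mulVec w i = sgk k (b.left i) * w (b.right⁻¹ i) := by
  rw [Matrix.mulVec, dotProduct]
  simp only [spMat, Matrix.of_apply, ite_mul, zero_mul]
  rw [Finset.sum_ite_eq]
  simp

theorem spMat_one : (spMat (1 : SP n) : Matrix (Fin n) (Fin n) k) = 1 := by
  ext i j
  simp [spMat, Matrix.one_apply, sgk]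

theorem spMat_mul (b c : SP n) : (spMat (b * c) : Matrix (Fin n) (Fin n) k) =
    spMat b * spMat c := by
  have h : ∀ w : Fin n → k, (spMat (b * c)).mulVec w =
      (spMat b * spMat c : Matrix (Fin n) (Fin n) k).mulVec w := by
    intro w
    ext i
    rw [← Matrix.mulVec_mulVec, spMat_mulVec, spMat_mulVec, spMat_mulVec]
    rw [SemidirectProduct.mul_left, SemidirectProduct.mul_right, Pi.mul_apply, sgk_mul, mul_assoc]
    rfl
  ext i j
  have h1 := congrFun (h (Pi.single j 1)) i
  rwa [Matrix.mulVec_single_one, Matrix.mulVec_single_one] at h1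

/-- the representation -/
def spHom (n : ℕ) (k : Type) [Field k] : SP n →* Matrix (Fin n) (Fin n) k where
  toFun := spMat
  map_one' := spMat_one
  map_mul' := spMat_mul

/-- the representation -/
def spGL (n : ℕ) (k : Type) [Field k] : SP n →* GL (Fin n) k := (spHom n k).toHomUnits

theorem spGL_val (b : SP n) : (spGL n k b : Matrix (Fin n) (Fin n) k) = spMat b := rfl

/-- the sign change in the coordinate `i` after the permutation `(i j)` -/
def spA (i j : Fin n) : SP n := ⟨1, Equiv.swap i j⟩

/-- the sign change in the coordinate `i` after the permutation `(i j)` -/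
def spB (i j : Fin n) : SP n := ⟨Function.update 1 i (-1), Equiv.swap i j⟩

theorem spMat_sub (i j : Fin n) : (spMat (spA i j) - spMat (spB i j) : Matrix (Fin n) (Fin n) k) =
    (2 : k) • Matrix.single i j 1 := by
  ext a b
  rw [Matrix.sub_apply, Matrix.smul_apply, smul_eq_mul, Matrix.single_apply]
  change (if (Equiv.swap i j)⁻¹ a = b then sgk k 1 else 0) -
    (if (Equiv.swap i j)⁻¹ a = b then sgk k (Function.update (1 : Fin n → ℤˣ) i (-1) a) else 0) = _
  rw [Equiv.swap_inv]
  by_cases ha : a = i
  · subst ha
    rw [Equiv.swap_apply_left, Function.update_self]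
    by_cases hb : j = b
    · subst hb
      simp [sgk]
      norm_num
    · rw [if_neg hb, if_neg hb, if_neg (fun h => hb h.2)]
      simp
  · have h3 : ¬ (i = a ∧ j = b) := fun h => ha h.1.symm
    rw [Function.update_of_ne ha, if_neg h3]
    simp

end Pool.Agent.H53.DC
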