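import Pool.Agent.H53.Lib.R_seed8.W85.FB.GAL
import Pool.Agent.H53.Lib.R_seed8.W401.Cheb.AbsDefs

/-!
# Every finite group is a Galois group over some number field
-/

set_option autoImplicit false

namespace Pool.Agent.H53.DC

open Polynomial NumberField
open Pool.Agent.W401.Cheb (GK)

theorem exists_field (E : Type) [Group E] [Finite E] :
    ∃ (K : Type) (_ : Field K) (_ : NumberField K) (φ : GK K →* E),
      Function.Surjective φ ∧ IsOpen (φ.ker : Set (GK K)) := by
  classical
  set m : ℕ := Nat.card E + 2 with hm
  set p : ℚ[X] := X ^ m - X - 1 with hp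
  have hsep : p.Separable := (X_pow_sub_X_sub_one_irreducible_rat (by omega)).separable
  set L : Type := p.SplittingField with hL
  have hsplit : IsSplittingField ℚ L p := IsSplittingField.splittingField p
  have hfd : FiniteDimensional ℚ L := IsSplittingField.finiteDimensional L p
  have hnf : NumberField L := { to_charZero := inferInstance, to_finiteDimensional := hfd }
  have hgal : IsGalois ℚ L := IsGalois.of_separable_splitting_field hsep
  -- the action on the roots
  let ψ : Gal(L/ℚ) →* Equiv.Perm (p.rootSet L) := MulAction.toPermHom (Gal(L/ℚ)) (p.rootSet L)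
  have hψ : Function.Surjective ψ := by
    intro σ
    obtain ⟨τ, hτ⟩ := Pool.Agent.W85.FB.gal_aux L (n := m) (by omega) hsplit σ
    refine ⟨τ, ?_⟩
    ext x
    exact hτ x
  -- the embedding of the group
  have hcard : Nat.card (p.rootSet L) = m := by
    rw [Nat.card_eq_fintype_card, card_rootSet_eq_natDegree hsep hsplit.splits]
    rw [hp]
    have : (X ^ m - X - 1 : ℚ[X]).natDegree = m := by
      have h1 : (X ^ m - X - 1 : ℚ[X]) = X ^ m - (X + 1) := by ring
      rw [h1, natDegree_sub_eq_left_of_natDegree_lt, natDegree_X_pow]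
      rw [natDegree_X_pow]
      have h2 : (X + 1 : ℚ[X]).natDegree = 1 := by
        have := natDegree_X_add_C (1 : ℚ)
        rwa [map_one] at this
      rw [h2]
      omega
    exact this
  have hfin : Finite (p.rootSet L) := Nat.finite_of_card_ne_zero (by rw [hcard]; omega)
  obtain ⟨j⟩ : Nonempty (E ↪ p.rootSet L) := by
    have := Fintype.ofFinite E
    have := Fintype.ofFinite (p.rootSet L)
    refine Function.Embedding.nonempty_of_card_le ?_
    rw [← Nat.card_eq_fintype_card, ← Nat.card_eq_fintype_card, hcard, hm]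
    omega
  let ι : E →* Equiv.Perm (p.rootSet L) :=
    (Equiv.Perm.viaEmbeddingHom j).comp (MulAction.toPermHom E E)
  have hι : Function.Injective ι :=
    (Equiv.Perm.viaEmbeddingHom_injective j).comp MulAction.toPerm_injective
  let H : Subgroup Gal(L/ℚ) := ι.range.comap ψ
  let θ : H →* E := (MonoidHom.ofInjective hι).symm.toMonoidHom.comp
    ((ψ.comp H.subtype).codRestrict ι.range fun x => x.2)
  have hθ : Function.Surjective θ := by
    intro e
    obtain ⟨τ, hτ⟩ := hψ (ι e)
    refine ⟨⟨τ, ?_⟩, ?_⟩
    · change ψ τ ∈ ι.range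
      exact ⟨e, hτ.symm⟩
    · change (MonoidHom.ofInjective hι).symm _ = e
      rw [MulEquiv.symm_apply_eq]
      apply Subtype.ext
      change ψ τ = ι e
      exact hτ
  let K : IntermediateField ℚ L := IntermediateField.fixedField H
  let e₁ : H ≃* Gal(L/K) := IntermediateField.subgroupEquivAlgEquiv H
  have hKgal : IsGalois K L := inferInstance
  let f : L →ₐ[K] AlgebraicClosure K := IsAlgClosed.lift
  let M : IntermediateField K (AlgebraicClosure K) := f.fieldRange
  let ε : L ≃ₐ[K] M := AlgEquiv.ofInjectiveField f
  have hMgal : IsGalois K M := IsGalois.of_algEquiv ε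
  have hMfd : FiniteDimensional K M := Module.Finite.equiv ε.toLinearEquiv
  let e₂ : Gal(M/K) ≃* Gal(L/K) := (AlgEquiv.autCongr ε).symm
  let r : GK K →* Gal(M/K) := AlgEquiv.restrictNormalHom M
  have hr : Function.Surjective r := AlgEquiv.restrictNormalHom_surjective _
  refine ⟨K, inferInstance, inferInstance,
    (θ.comp e₁.symm.toMonoidHom).comp (e₂.toMonoidHom.comp r),
    (hθ.comp e₁.symm.surjective).comp (e₂.surjective.comp hr), ?_⟩
  have h1 : IsOpen (r.ker : Set (GK K)) := by
    have h2 : r.ker = M.fixingSubgroup := M.restrictNormalHom_ker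
    rw [h2]
    exact IntermediateField.fixingSubgroup_isOpen M
  refine Subgroup.isOpen_mono ?_ h1
  intro x hx
  rw [MonoidHom.mem_ker] at hx ⊢
  change θ (e₁.symm (e₂ (r x))) = 1
  rw [hx, map_one, map_one, map_one]

end Pool.Agent.H53.DC
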