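import Mathlib

/-!
# Traces which determine the multiplicativity of a factor
-/

set_option autoImplicit false

namespace Pool.Agent.H53.DC

open Matrix

variable {k : Type} [Field k] {n : ℕ}

theorem tr_E_mul (i j : Fin n) (X : Matrix (Fin n) (Fin n) k) :
    (Matrix.single i j (1 : k) * X).trace = X j i := by
  rw [Matrix.trace, Finset.sum_eq_single i]
  · simp [Matrix.diag]
  · intro b _ hb
    simp [Matrix.diag, hb]
  · simp

theorem tr_E_mul_E (a b i j : Fin n) (X : Matrix (Fin n) (Fin n) k) :
    (Matrix.single a b (1 : k) * X * Matrix.single i j 1).trace = if j = a then X b i else 0 := by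
  rw [Matrix.trace_mul_comm, ← mul_assoc]
  by_cases h : j = a
  · subst h
    rw [Matrix.single_mul_single_same, mul_one, tr_E_mul, if_pos rfl]
  · rw [Matrix.single_mul_single_of_ne _ _ _ _ h, zero_mul, Matrix.trace_zero, if_neg h]

variable [CharZero k] {G : Type} [Group G]

theorem mult_of_trace (hn : 0 < n) (e : G → k) (r R : G →* GL (Fin n) k)
    (htr : ∀ g, (R g : Matrix (Fin n) (Fin n) k).trace =
      e g * (r g : Matrix (Fin n) (Fin n) k).trace)
    (a b : Fin n → Fin n → G)
    (hE : ∀ i j, (r (a i j) : Matrix (Fin n) (Fin n) k) - (r (b i j) : Matrix (Fin n) (Fin n) k) =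
      (2 : k) • Matrix.single i j 1)
    (ha1 : ∀ i j g, e (a i j * g) = e g) (ha2 : ∀ i j g, e (g * a i j) = e g)
    (hb1 : ∀ i j g, e (b i j * g) = e g) (hb2 : ∀ i j g, e (g * b i j) = e g) (g h : G) :
    e (g * h) = e g * e h := by
  classical
  have hne : Nonempty (Fin n) := ⟨⟨0, hn⟩⟩
  have h2 : (2 : k) ≠ 0 := two_ne_zero
  let F : Fin n → Fin n → Matrix (Fin n) (Fin n) k := fun i j =>
    (R (a i j) : Matrix (Fin n) (Fin n) k) - (R (b i j) : Matrix (Fin n) (Fin n) k)
  -- one sided
  have hF1 : ∀ i j g, (F i j * (R g : Matrix (Fin n) (Fin n) k)).trace =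
      2 * e g * (r g : Matrix (Fin n) (Fin n) k) j i := by
    intro i j g
    have e1 : (F i j * (R g : Matrix (Fin n) (Fin n) k)) =
        (R (a i j * g) : Matrix (Fin n) (Fin n) k) - (R (b i j * g) : Matrix (Fin n) (Fin n) k) := by
      rw [map_mul, map_mul, Units.val_mul, Units.val_mul, ← sub_mul]
    rw [e1, Matrix.trace_sub, htr, htr, ha1, hb1, ← mul_sub, ← Matrix.trace_sub, map_mul, map_mul,
      Units.val_mul, Units.val_mul, ← sub_mul, hE, Matrix.smul_mul, Matrix.trace_smul, tr_E_mul,
      smul_eq_mul]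
    ring
  -- two sided
  have hF2 : ∀ i j i' j' g, (F i j * (R g : Matrix (Fin n) (Fin n) k) * F i' j').trace =
      4 * e g * (if j' = i then (r g : Matrix (Fin n) (Fin n) k) j i' else 0) := by
    intro i j i' j' g
    have e1 : (F i j * (R g : Matrix (Fin n) (Fin n) k) * F i' j') =
        ((R (a i j * g * a i' j') : Matrix (Fin n) (Fin n) k) -
          (R (b i j * g * a i' j') : Matrix (Fin n) (Fin n) k)) -
        ((R (a i j * g * b i' j') : Matrix (Fin n) (Fin n) k) -
          (R (b i j * g * b i' j') : Matrix (Fin n) (Fin n) k)) := by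
      simp only [map_mul, Units.val_mul]
      rw [← sub_mul, ← sub_mul, ← sub_mul, ← sub_mul, ← mul_sub]
    have e2 : ((r (a i j * g * a i' j') : Matrix (Fin n) (Fin n) k) -
          (r (b i j * g * a i' j') : Matrix (Fin n) (Fin n) k)) -
        ((r (a i j * g * b i' j') : Matrix (Fin n) (Fin n) k) -
          (r (b i j * g * b i' j') : Matrix (Fin n) (Fin n) k)) =
        (4 : k) • (Matrix.single i j 1 * (r g : Matrix (Fin n) (Fin n) k) *
          Matrix.single i' j' 1) := by
      simp only [map_mul, Units.val_mul]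
      rw [← sub_mul, ← sub_mul, ← sub_mul, ← sub_mul, ← mul_sub, hE, hE, Matrix.smul_mul,
        Matrix.smul_mul, Matrix.mul_smul, smul_smul]
      norm_num
    rw [e1, Matrix.trace_sub, Matrix.trace_sub, Matrix.trace_sub, htr, htr, htr, htr]
    simp only [ha1, ha2, hb1, hb2]
    rw [← mul_sub, ← mul_sub, ← mul_sub, ← Matrix.trace_sub, ← Matrix.trace_sub,
      ← Matrix.trace_sub, e2, Matrix.trace_smul, tr_E_mul_E, smul_eq_mul]
    ring
  have he1 : e 1 = 1 := by
    have h1 := htr 1
    rw [map_one, map_one, Units.val_one, Matrix.trace_one, Fintype.card_fin] at h1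
    have h3 : (n : k) ≠ 0 := Nat.cast_ne_zero.2 hn.ne'
    exact (mul_right_cancel₀ h3 (by rw [one_mul]; exact h1)).symm
  have hF3 : ∀ i j i' j', (F i j * F i' j').trace =
      if j' = i ∧ j = i' then 4 else 0 := by
    intro i j i' j'
    have h1 := hF2 i j i' j' 1
    rw [map_one, map_one, Units.val_one, mul_one, he1, mul_one, Matrix.one_apply] at h1
    rw [h1]
    by_cases h3 : j' = i
    · by_cases h4 : j = i'
      · rw [if_pos h3, if_pos h4, if_pos ⟨h3, h4⟩, mul_one]
      · rw [if_pos h3, if_neg h4, if_neg (fun h => h4 h.2), mul_zero]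
    · rw [if_neg h3, if_neg (fun h => h3 h.1), mul_zero]
  -- a basis
  have hli : LinearIndependent k fun p : Fin n × Fin n => F p.1 p.2 := by
    rw [Fintype.linearIndependent_iff]
    intro c hc p
    have h1 := congrArg (fun X => (F p.2 p.1 * X).trace) hc
    simp only [Matrix.mul_zero, Matrix.trace_zero] at h1
    rw [Finset.mul_sum, Matrix.trace_sum, Finset.sum_eq_single p] at h1
    · rw [Matrix.mul_smul, Matrix.trace_smul, hF3, if_pos ⟨rfl, rfl⟩, smul_eq_mul] at h1
      have h4 : (4 : k) ≠ 0 := by norm_num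
      exact (mul_eq_zero.1 h1).resolve_right h4
    · intro q _ hq
      rw [Matrix.mul_smul, Matrix.trace_smul, hF3, if_neg, smul_zero]
      rintro ⟨h3, h4⟩
      exact hq (Prod.ext h4.symm h3)
    · intro h
      exact absurd (Finset.mem_univ p) h
  have hspan : Submodule.span k (Set.range fun p : Fin n × Fin n => F p.1 p.2) = ⊤ := by
    refine hli.span_eq_top_of_card_eq_finrank ?_
    rw [Fintype.card_prod, Fintype.card_fin, Module.finrank_matrix, Fintype.card_fin,
      Module.finrank_self, mul_one]
  have hzero : ∀ X : Matrix (Fin n) (Fin n) k, (∀ i j, (F i j * X).trace = 0) → X = 0 := by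
    intro X hX
    have h1 : ∀ Y : Matrix (Fin n) (Fin n) k, (Y * X).trace = 0 := by
      intro Y
      have hY : Y ∈ Submodule.span k (Set.range fun p : Fin n × Fin n => F p.1 p.2) := by
        rw [hspan]; trivial
      induction hY using Submodule.span_induction with
      | mem y hy =>
        obtain ⟨p, rfl⟩ := hy
        exact hX _ _
      | zero => rw [zero_mul, Matrix.trace_zero]
      | add y z _ _ hy hz => rw [add_mul, Matrix.trace_add, hy, hz, add_zero]
      | smul c y _ hy => rw [Matrix.smul_mul, Matrix.trace_smul, hy, smul_zero]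
    ext i j
    have h3 := h1 (Matrix.single j i 1)
    rwa [tr_E_mul] at h3
  have hR : (R g : Matrix (Fin n) (Fin n) k) =
      (e g / 2) • ∑ p : Fin n × Fin n, (r g : Matrix (Fin n) (Fin n) k) p.1 p.2 • F p.1 p.2 := by
    rw [← sub_eq_zero]
    apply hzero
    intro i j
    rw [Matrix.mul_sub, Matrix.trace_sub, hF1, Matrix.mul_smul, Matrix.trace_smul, Finset.mul_sum,
      Matrix.trace_sum, Finset.sum_eq_single (j, i)]
    · rw [Matrix.mul_smul, Matrix.trace_smul, hF3, if_pos ⟨rfl, rfl⟩, smul_eq_mul, smul_eq_mul]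
      field_simp
      ring
    · intro q _ hq
      rw [Matrix.mul_smul, Matrix.trace_smul, hF3, if_neg, smul_zero]
      rintro ⟨h3, h4⟩
      exact hq (Prod.ext h4.symm h3)
    · intro h
      exact absurd (Finset.mem_univ _) h
  -- the product
  have key : ∀ i j, 2 * e (g * h) * (r (g * h) : Matrix (Fin n) (Fin n) k) j i =
      2 * (e g * e h) * (r (g * h) : Matrix (Fin n) (Fin n) k) j i := by
    intro i j
    rw [← hF1, Matrix.trace_mul_comm, map_mul, Units.val_mul]
    conv_lhs => rw [hR]
    rw [Matrix.smul_mul, Matrix.smul_mul, Matrix.trace_smul, Finset.sum_mul, Finset.sum_mul,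
      Matrix.trace_sum]
    have h3 : ∀ p : Fin n × Fin n, (((r g : Matrix (Fin n) (Fin n) k) p.1 p.2 • F p.1 p.2) *
        (R h : Matrix (Fin n) (Fin n) k) * F i j).trace =
        if j = p.1 then 4 * e h * ((r g : Matrix (Fin n) (Fin n) k) p.1 p.2 *
          (r h : Matrix (Fin n) (Fin n) k) p.2 i) else 0 := by
      intro p
      rw [Matrix.smul_mul, Matrix.smul_mul, Matrix.trace_smul, hF2, smul_eq_mul]
      split_ifs <;> ring
    rw [Finset.sum_congr rfl fun p _ => h3 p, Fintype.sum_prod_type]
    rw [Finset.sum_eq_single j]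
    · simp only [if_true]
      rw [← Finset.mul_sum, ← Matrix.mul_apply, ← Units.val_mul, ← map_mul, smul_eq_mul]
      field_simp
      ring
    · intro b _ hb
      simp only [if_neg hb.symm, Finset.sum_const_zero]
    · intro h
      exact absurd (Finset.mem_univ _) h
  obtain ⟨j, i, hji⟩ : ∃ j i, (r (g * h) : Matrix (Fin n) (Fin n) k) j i ≠ 0 := by
    by_contra hcon
    push Not at hcon
    have h1 : (r (g * h) : Matrix (Fin n) (Fin n) k) = 0 := by
      ext j i
      exact hcon j i
    exact (r (g * h)).ne_zero h1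
  have h3 := mul_right_cancel₀ hji (key i j)
  exact mul_left_cancel₀ h2 h3

end Pool.Agent.H53.DC
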