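import Pool.Agent.H53.DC.NT
import Pool.Agent.H53.DC.Mon
import Pool.Agent.H53.DC.Span
import Pool.Agent.H53.DC.Real

/-!
# Failure of descent
-/

set_option autoImplicit false
set_option linter.unusedSectionVars false

namespace Pool.Agent.H53.DC

open NumberField IsDedekindDomain Polynomial Topology
open Pool.Agent.W401.Cheb (GK IsFrob IsInert)
open Pool.Agent.Q15.GR (frob_dense isFrob_conj)

section grp

variable {Γ : Type} [Group Γ] {𝓤 : Set (Subgroup Γ)} {A : Type*} [CommGroup A]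
  (χ : (pr 𝓤).ker →* A)

theorem dev_mem (u : Ext 𝓤) : u⁻¹ * br 𝓤 (pr 𝓤 u) ∈ (pr 𝓤).ker := by
  rw [MonoidHom.mem_ker, map_mul, map_inv, pr_br, inv_mul_cancel]

/-- the value of `χ` at the deviation of `u` from the section -/
def ev (u : Ext 𝓤) : A := χ ⟨u⁻¹ * br 𝓤 (pr 𝓤 u), dev_mem u⟩

theorem ev_mul {u v : Ext 𝓤} (h : br 𝓤 (pr 𝓤 u * pr 𝓤 v) = br 𝓤 (pr 𝓤 u) * br 𝓤 (pr 𝓤 v)) :
    ev χ (u * v) = ev χ u * ev χ v := by
  rw [ev, ev, ev, ← map_mul]
  congr 1
  apply Subtype.ext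
  change (u * v)⁻¹ * br 𝓤 (pr 𝓤 (u * v)) =
    u⁻¹ * br 𝓤 (pr 𝓤 u) * (v⁻¹ * br 𝓤 (pr 𝓤 v))
  rw [map_mul, h]
  have h1 := ker_comm (MonoidHom.mem_ker.1 (dev_mem u)) v⁻¹
  calc (u * v)⁻¹ * (br 𝓤 (pr 𝓤 u) * br 𝓤 (pr 𝓤 v)) =
      v⁻¹ * (u⁻¹ * br 𝓤 (pr 𝓤 u)) * br 𝓤 (pr 𝓤 v) := by group
    _ = _ := by rw [← h1]; group

theorem ev_conj (x u : Ext 𝓤) : ev χ (x * u * x⁻¹) = ev χ u := by
  rw [ev, ev]
  congr 1
  apply Subtype.ext
  change (x * u * x⁻¹)⁻¹ * br 𝓤 (pr 𝓤 (x * u * x⁻¹)) = u⁻¹ * br 𝓤 (pr 𝓤 u)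
  rw [map_mul, map_mul, map_inv, ← conj_br]
  have h1 := ker_comm (MonoidHom.mem_ker.1 (dev_mem u)) x
  calc (x * u * x⁻¹)⁻¹ * (x * br 𝓤 (pr 𝓤 u) * x⁻¹) =
      x * (u⁻¹ * br 𝓤 (pr 𝓤 u)) * x⁻¹ := by group
    _ = _ := by rw [← h1]; group

theorem ev_one (hcov : Covers 𝓤) : ev χ 1 = 1 := by
  have h1 := ev_mul χ (u := 1) (v := 1) (by simp [br_one hcov])
  rw [mul_one] at h1
  exact mul_eq_left.1 h1.symm

theorem ev_pow (hcov : Covers 𝓤) (u : Ext 𝓤) (f : ℕ) : ev χ (u ^ f) = ev χ u ^ f := by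
  induction f with
  | zero => rw [pow_zero, pow_zero, ev_one χ hcov]
  | succ f ih =>
    rw [pow_succ, ev_mul χ, ih, pow_succ]
    rw [map_pow, ← pow_succ, br_pow hcov, br_pow hcov, pow_succ]

theorem ev_br (g : Γ) : ev χ (br 𝓤 g) = 1 := by
  have h1 : (⟨(br 𝓤 g)⁻¹ * br 𝓤 (pr 𝓤 (br 𝓤 g)), dev_mem (br 𝓤 g)⟩ : (pr 𝓤).ker) = 1 := by
    apply Subtype.ext
    change (br 𝓤 g)⁻¹ * br 𝓤 (pr 𝓤 (br 𝓤 g)) = 1
    rw [pr_br, inv_mul_cancel]
  rw [ev, h1, map_one]

theorem ev_coc (g h : Γ) : ev χ (br 𝓤 g * br 𝓤 h) = (χ (coc g h))⁻¹ := by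
  rw [ev, ← map_inv]
  congr 1
  apply Subtype.ext
  change (br 𝓤 g * br 𝓤 h)⁻¹ * br 𝓤 (pr 𝓤 (br 𝓤 g * br 𝓤 h)) =
    (br 𝓤 g * br 𝓤 h * (br 𝓤 (g * h))⁻¹)⁻¹
  rw [map_mul, pr_br, pr_br]
  have h1 := ker_comm (MonoidHom.mem_ker.1 (coc_mem (𝓤 := 𝓤) g h)) (br 𝓤 (g * h))
  have h2 : br 𝓤 g * br 𝓤 h = br 𝓤 (g * h) * (br 𝓤 g * br 𝓤 h * (br 𝓤 (g * h))⁻¹) := by
    rw [← h1]; group
  conv_lhs => rw [h2]
  group

end grp

section mat

variable {k : Type} [Field k] {n : ℕ}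

/-- scalar matrices -/
def sc (n : ℕ) (k : Type) [Field k] : kˣ →* GL (Fin n) k :=
  Units.map (algebraMap k (Matrix (Fin n) (Fin n) k) : k →* Matrix (Fin n) (Fin n) k)

theorem sc_comm (c : kˣ) (g : GL (Fin n) k) : sc n k c * g = g * sc n k c := by
  apply Units.ext
  exact Algebra.commutes _ _

theorem sc_mul_val (c : kˣ) (g : GL (Fin n) k) :
    ((sc n k c * g : GL (Fin n) k) : Matrix (Fin n) (Fin n) k) =
      (c : k) • (g : Matrix (Fin n) (Fin n) k) := by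
  rw [Algebra.smul_def]
  rfl

theorem trace_sc (c : kˣ) (g : GL (Fin n) k) :
    ((sc n k c * g : GL (Fin n) k) : Matrix (Fin n) (Fin n) k).trace =
      (c : k) * (g : Matrix (Fin n) (Fin n) k).trace := by
  rw [sc_mul_val, Matrix.trace_smul, smul_eq_mul]

theorem det_sc (c : kˣ) (hc : c ^ n = 1) (g : GL (Fin n) k) :
    Matrix.GeneralLinearGroup.det (sc n k c * g) = Matrix.GeneralLinearGroup.det g := by
  apply Units.ext
  rw [Matrix.GeneralLinearGroup.val_det_apply, sc_mul_val, Matrix.det_smul, Fintype.card_fin,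
    ← Units.val_pow_eq_pow_val, hc, Units.val_one, one_mul,
    Matrix.GeneralLinearGroup.val_det_apply]

theorem exists_enum (s : Multiset k) (hs : Multiset.card s = n) :
    ∃ α : Fin n → k, s = Multiset.map α Finset.univ.val := by
  subst hs
  refine ⟨fun i => s.toList.get (i.cast (Multiset.length_toList s).symm), ?_⟩
  have h1 : (s.toList : Multiset k) = s := Multiset.coe_toList s
  conv_lhs => rw [← h1]
  have h2 : s.toList = List.ofFn fun i : Fin (Multiset.card s) =>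
      s.toList.get (i.cast (Multiset.length_toList s).symm) := by
    apply List.ext_get
    · rw [List.length_ofFn, Multiset.length_toList]
    · intro m h3 h4
      simp
  conv_lhs => rw [h2]
  rw [Fin.univ_val_map]

variable [IsAlgClosed k]

theorem exists_roots (A : Matrix (Fin n) (Fin n) k) : ∃ α : Fin n → k, ∀ f : ℕ,
    (A ^ f).charpoly = ∏ l, (X - C (α l ^ f)) := by
  have hcard : Multiset.card A.charpoly.roots = n := by
    rw [splits_iff_card_roots.mp (IsAlgClosed.splits A.charpoly),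
      Matrix.charpoly_natDegree_eq_dim, Fintype.card_fin]
  obtain ⟨α, hα⟩ := exists_enum A.charpoly.roots hcard
  refine ⟨α, fun f => ?_⟩
  rw [Pool.Agent.Q227.CD.charpoly_pow, hα, Multiset.map_map]
  rfl

end mat

section top

variable {K : Type} [Field K] [NumberField K] {E : Type} [Group E]

theorem cont_of_ker (φ : GK K →* E) (hφ : IsOpen (φ.ker : Set (GK K))) {X : Type*}
    [TopologicalSpace X] (F : E → X) : Continuous fun σ => F (φ σ) := by
  apply IsLocallyConstant.continuous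
  rw [IsLocallyConstant.iff_exists_open]
  intro σ
  refine ⟨(fun τ => σ⁻¹ * τ) ⁻¹' (φ.ker : Set (GK K)),
    hφ.preimage (continuous_const.mul continuous_id), ?_, ?_⟩
  · change σ⁻¹ * σ ∈ φ.ker
    rw [inv_mul_cancel]
    exact φ.ker.one_mem
  · intro τ hτ
    have h1 : φ (σ⁻¹ * τ) = 1 := hτ
    rw [map_mul, map_inv, inv_mul_eq_one] at h1
    rw [h1]

theorem frobPow_conj (φ : GK K →* E) {v : HeightOneSpectrum (𝓞 K)}
    (hv : ∀ τ, IsInert v τ → φ τ = 1) {σ₀ σ : GK K} (hσ₀ : IsFrob v σ₀) {f : ℕ}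
    (hσ : IsFrobPow v f σ) : ∃ x, φ σ = φ x * φ σ₀ ^ f * (φ x)⁻¹ := by
  obtain ⟨Q, hQ1, hQ2, hQ3⟩ := hσ
  obtain ⟨σ₁, hσ₁⟩ := Pool.Agent.Q227.CD.exists_frob_at (v := v) (Q := Q) ⟨hQ1, hQ2⟩
  have h1 := Pool.Agent.Q227.CD.mul_of_frobPow ⟨hQ1, hQ2⟩ hσ₁ f hQ3
  have h2 : φ ((σ₁ ^ f)⁻¹ * σ) = 1 :=
    hv _ (Pool.Agent.Q227.CD.isInert_iff.2 ⟨Q, ⟨hQ1, hQ2⟩, h1⟩)
  obtain ⟨g, τ, hτ, h3⟩ := Pool.Agent.W401.Frob.conj_frob v σ₀ σ₁ hσ₀ ⟨Q, hQ1, hQ2, hσ₁⟩
  refine ⟨g, ?_⟩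
  rw [map_mul, map_inv, inv_mul_eq_one, map_pow] at h2
  rw [← h2, h3, map_mul, hv τ hτ, mul_one, map_mul, map_mul, map_inv, conj_pow]

end top

/-- **The negative part** -/
theorem fails {Γ : Type} [Group Γ] [Finite Γ] {𝓤 : Set (Subgroup Γ)} (hcov : Covers 𝓤) {n : ℕ}
    (hn : 0 < n) {p : ℕ} (hp : p.Prime) (hpn : p ∣ n) (hpZ : p ∣ Nat.card (pr 𝓤).ker) :
    ∃ (K : Type) (_ : Field K) (_ : NumberField K) (π : GK K →* Γ), Function.Surjective π ∧
      IsOpen (π.ker : Set (GK K)) ∧ ∀ (k : Type) [Field k] [CharZero k] [IsAlgClosed k]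
        [TopologicalSpace k] [IsTopologicalRing k] [T2Space k],
        Fails n π.ker (fields π 𝓤) k := by
  classical
  have : Finite (Ext 𝓤) := finite_ext hcov
  obtain ⟨K, iK, inK, φ, hφ, hφo⟩ := exists_field (Ext 𝓤 × SP n)
  let φ₁ : GK K →* Ext 𝓤 := (MonoidHom.fst _ _).comp φ
  let φ₂ : GK K →* SP n := (MonoidHom.snd _ _).comp φ
  let π : GK K →* Γ := (pr 𝓤).comp φ₁
  have hφ₁ : Function.Surjective φ₁ := fun u => by
    obtain ⟨σ, hσ⟩ := hφ (u, 1)
    exact ⟨σ, congrArg Prod.fst hσ⟩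
  have hπ : Function.Surjective π := pr_surjective.comp hφ₁
  have hkerle : φ.ker ≤ π.ker := fun x hx => by
    rw [MonoidHom.mem_ker] at hx ⊢
    change pr 𝓤 (φ x).1 = 1
    rw [hx, Prod.fst_one, map_one]
  refine ⟨K, iK, inK, π, hπ, Subgroup.isOpen_mono hkerle hφo, ?_⟩
  intro k _ _ _ _ _ _
  obtain ⟨χ, hχp, g₀, h₀, hgh⟩ := exists_char hcov hp hpZ k
  have hevp : ∀ u : Ext 𝓤, ev χ u ^ n = 1 := by
    intro u
    obtain ⟨m, rfl⟩ := hpn
    rw [pow_mul, ev, hχp, one_pow]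
  -- the matrices
  let M : Ext 𝓤 × SP n → GL (Fin n) k := fun x => sc n k (ev χ x.1) * spGL n k x.2
  have hM1 : M 1 = 1 := by
    change sc n k (ev χ 1) * spGL n k 1 = 1
    rw [ev_one χ hcov, map_one, map_one, one_mul]
  have hMmul : ∀ x y : Ext 𝓤 × SP n,
      br 𝓤 (pr 𝓤 x.1 * pr 𝓤 y.1) = br 𝓤 (pr 𝓤 x.1) * br 𝓤 (pr 𝓤 y.1) →
      M (x * y) = M x * M y := by
    intro x y hxy
    change sc n k (ev χ (x.1 * y.1)) * spGL n k (x.2 * y.2) =
      sc n k (ev χ x.1) * spGL n k x.2 * (sc n k (ev χ y.1) * spGL n k y.2)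
    rw [ev_mul χ hxy, map_mul, map_mul]
    have h1 := sc_comm (ev χ y.1) (spGL n k x.2)
    calc sc n k (ev χ x.1) * sc n k (ev χ y.1) * (spGL n k x.2 * spGL n k y.2) =
        sc n k (ev χ x.1) * (sc n k (ev χ y.1) * spGL n k x.2) * spGL n k y.2 := by group
      _ = _ := by rw [h1]; group
  have hMpow : ∀ (x : Ext 𝓤 × SP n) (f : ℕ), M (x ^ f) = M x ^ f := by
    intro x f
    change sc n k (ev χ (x.1 ^ f)) * spGL n k (x.2 ^ f) = (sc n k (ev χ x.1) * spGL n k x.2) ^ f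
    rw [ev_pow χ hcov, map_pow, map_pow, (show Commute (sc n k (ev χ x.1)) (spGL n k x.2) from
      sc_comm _ _).mul_pow]
  have hMconj : ∀ x y : Ext 𝓤 × SP n, M (x * y * x⁻¹) = spGL n k x.2 * M y * (spGL n k x.2)⁻¹ := by
    intro x y
    change sc n k (ev χ (x.1 * y.1 * x.1⁻¹)) * spGL n k (x.2 * y.2 * x.2⁻¹) =
      spGL n k x.2 * (sc n k (ev χ y.1) * spGL n k y.2) * (spGL n k x.2)⁻¹
    rw [ev_conj, map_mul, map_mul, map_inv]
    have h1 := sc_comm (ev χ y.1) (spGL n k x.2)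
    calc sc n k (ev χ y.1) * (spGL n k x.2 * spGL n k y.2 * (spGL n k x.2)⁻¹) =
        (sc n k (ev χ y.1) * spGL n k x.2) * spGL n k y.2 * (spGL n k x.2)⁻¹ := by group
      _ = _ := by rw [h1]; group
  have hMchar : ∀ x y : Ext 𝓤 × SP n, (M (x * y * x⁻¹) : Matrix (Fin n) (Fin n) k).charpoly =
      (M y : Matrix (Fin n) (Fin n) k).charpoly := by
    intro x y
    rw [hMconj, Units.val_mul, Units.val_mul, Matrix.coe_units_inv]
    exact Matrix.charpoly_units_conj _ _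
  -- the places
  let S : Set (HeightOneSpectrum (𝓞 K)) := {v | ∃ τ, IsInert v τ ∧ τ ∉ φ.ker}
  have hS : S.Finite := Pool.Agent.Q227.CD.ram_finite φ.ker hφo
  have hSin : ∀ v ∉ S, ∀ τ, IsInert v τ → φ τ = 1 := by
    intro v hv τ hτ
    by_contra h
    exact hv ⟨τ, hτ, h⟩
  choose σ₀ hσ₀ using fun v : HeightOneSpectrum (𝓞 K) => Pool.Agent.W401.Frob.exists_frob v
  choose α hα using fun v : HeightOneSpectrum (𝓞 K) =>
    exists_roots (M (φ (σ₀ v)) : Matrix (Fin n) (Fin n) k)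
  have hchar : ∀ v ∉ S, ∀ (f : ℕ) (σ : GK K), IsFrobPow v f σ →
      (M (φ σ) : Matrix (Fin n) (Fin n) k).charpoly = ∏ l, (X - C (α v l ^ f)) := by
    intro v hv f σ hσ
    obtain ⟨x, hx⟩ := frobPow_conj φ (hSin v hv) (hσ₀ v) hσ
    rw [hx, hMchar, hMpow, Units.val_pow_eq_pow_val, hα]
  let δ : GK K →* kˣ := Matrix.GeneralLinearGroup.det.comp ((spGL n k).comp φ₂)
  have hδM : ∀ σ, Matrix.GeneralLinearGroup.det (M (φ σ)) = δ σ := fun σ => det_sc _ (hevp _) _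
  have hδc : Continuous δ := cont_of_ker φ hφo
    (fun x : Ext 𝓤 × SP n => Matrix.GeneralLinearGroup.det (spGL n k x.2))
  refine ⟨S, α, δ, hS, ⟨hδc, fun v hv σ hσ => ?_⟩, ?_, ?_⟩
  · have h1 := hchar v hv 1 σ (isFrobPow_one.2 hσ)
    simp only [pow_one] at h1
    rw [← hδM, Matrix.GeneralLinearGroup.val_det_apply]
    exact det_of_charpoly h1
  · -- the representations over the fields of the family
    rintro _ ⟨U, hU, rfl⟩
    let ρ : U.comap π →* GL (Fin n) k :=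
      { toFun := fun σ => M (φ σ)
        map_one' := by
          change M (φ 1) = 1
          rw [map_one, hM1]
        map_mul' := by
          rintro ⟨σ, hσ⟩ ⟨τ, hτ⟩
          change M (φ (σ * τ)) = M (φ σ) * M (φ τ)
          rw [map_mul]
          exact hMmul _ _ (br_mul hU hσ hτ) }
    refine ⟨ρ, ?_, ⟨hn, fun W hW => ?_⟩, fun v hv => ⟨fun σ hσ => ?_, fun f σ _ hσ => ?_⟩⟩
    · exact (cont_of_ker φ hφo M).comp continuous_subtype_val
    · -- irreducibility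
      have hinv : ∀ b : SP n, ∀ w ∈ W, (spMat b : Matrix (Fin n) (Fin n) k).mulVec w ∈ W := by
        intro b w hw
        obtain ⟨σ, hσ⟩ := hφ (1, b)
        have h1 : π σ = 1 := by
          change pr 𝓤 (φ σ).1 = 1
          rw [hσ, map_one]
        have h2 := hW ⟨σ, by change π σ ∈ U; rw [h1]; exact U.one_mem⟩ h1 w hw
        change (M (φ σ) : Matrix (Fin n) (Fin n) k).mulVec w ∈ W at h2
        rw [hσ] at h2
        change ((sc n k (ev χ 1) * spGL n k b : GL (Fin n) k) :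
          Matrix (Fin n) (Fin n) k).mulVec w ∈ W at h2
        rwa [ev_one χ hcov, map_one, one_mul, spGL_val] at h2
      have hE : ∀ i j, ∀ w ∈ W, (Matrix.single i j (1 : k)).mulVec w ∈ W := by
        intro i j w hw
        have h1 := W.sub_mem (hinv (spA i j) w hw) (hinv (spB i j) w hw)
        rw [← Matrix.sub_mulVec, spMat_sub, Matrix.smul_mulVec] at h1
        have h2 := W.smul_mem (2 : k)⁻¹ h1
        rwa [smul_smul, inv_mul_cancel₀ two_ne_zero, one_smul] at h2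
      by_cases hW0 : W = ⊥
      · exact Or.inl hW0
      right
      obtain ⟨w, hw, hw0⟩ := W.exists_mem_ne_zero_of_ne_bot hW0
      obtain ⟨j, hj⟩ : ∃ j, w j ≠ 0 := by
        by_contra hcon
        push Not at hcon
        exact hw0 (funext hcon)
      rw [eq_top_iff]
      intro y _
      have h1 : y = ∑ i, (y i / w j) • (Matrix.single i j (1 : k)).mulVec w := by
        ext a
        rw [Finset.sum_apply, Finset.sum_eq_single a]
        · rw [Pi.smul_apply, Matrix.single_mulVec]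
          simp [hj]
        · intro b _ hb
          rw [Pi.smul_apply, Matrix.single_mulVec]
          simp [hb.symm]
        · intro h
          exact absurd (Finset.mem_univ _) h
      rw [h1]
      exact W.sum_mem fun i _ => W.smul_mem _ (hE i j w hw)
    · change M (φ σ) = 1
      rw [hSin v hv σ hσ, hM1]
    · exact hchar v hv f σ hσ
  · -- no representation over `K`
    rintro S' hS' ⟨R, hRc, hR⟩
    have htr : ∀ g : GK K, (R g : Matrix (Fin n) (Fin n) k).trace =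
        ((ev χ (φ₁ g) : kˣ) : k) *
          (((spGL n k).comp φ₂ g : GL (Fin n) k) : Matrix (Fin n) (Fin n) k).trace := by
      have h1 : (fun g : GK K => (R g : Matrix (Fin n) (Fin n) k).trace) =
          fun g => (M (φ g) : Matrix (Fin n) (Fin n) k).trace := by
        refine Continuous.ext_on (frob_dense (S ∪ S') (hS.union hS')) (cont_trace hRc)
          (cont_of_ker φ hφo fun x => (M x : Matrix (Fin n) (Fin n) k).trace) ?_
        rintro σ ⟨v, hv, hσ⟩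
        change (R σ : Matrix (Fin n) (Fin n) k).trace =
          (M (φ σ) : Matrix (Fin n) (Fin n) k).trace
        apply trace_of_charpoly hn
        rw [hR v (fun h => hv (Or.inr h)) σ hσ,
          hchar v (fun h => hv (Or.inl h)) 1 σ (isFrobPow_one.2 hσ)]
        simp only [pow_one]
      intro g
      rw [← trace_sc]
      exact congrFun h1 g
    -- lifts
    choose a ha using fun i j : Fin n => hφ (1, spA i j)
    choose b hb using fun i j : Fin n => hφ (1, spB i j)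
    have hφa : ∀ i j, φ₁ (a i j) = 1 := fun i j => congrArg Prod.fst (ha i j)
    have hφb : ∀ i j, φ₁ (b i j) = 1 := fun i j => congrArg Prod.fst (hb i j)
    have hmult := mult_of_trace hn (fun g : GK K => ((ev χ (φ₁ g) : kˣ) : k))
      ((spGL n k).comp φ₂) R htr a b (fun i j => by
        have h1 : φ₂ (a i j) = spA i j := congrArg Prod.snd (ha i j)
        have h2 : φ₂ (b i j) = spB i j := congrArg Prod.snd (hb i j)
        change (spGL n k (φ₂ (a i j)) : Matrix (Fin n) (Fin n) k) -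
          (spGL n k (φ₂ (b i j)) : Matrix (Fin n) (Fin n) k) = _
        rw [h1, h2, spGL_val, spGL_val, spMat_sub])
      (fun i j g => by simp only [map_mul, hφa, one_mul])
      (fun i j g => by simp only [map_mul, hφa, mul_one])
      (fun i j g => by simp only [map_mul, hφb, one_mul])
      (fun i j g => by simp only [map_mul, hφb, mul_one])
    obtain ⟨x, hx⟩ := hφ₁ (br 𝓤 g₀)
    obtain ⟨y, hy⟩ := hφ₁ (br 𝓤 h₀)
    have h1 := hmult x y
    simp only [map_mul, hx, hy, ev_br, ev_coc, Units.val_one, mul_one] at h1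
    apply hgh
    have h2 : (χ (coc g₀ h₀))⁻¹ = 1 := Units.ext (by rw [h1, Units.val_one])
    exact inv_eq_one.1 h2

end Pool.Agent.H53.DC
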